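import Pool.Graph.R_pool_sql_team_seeded_c8625f6e.K4H60.BZ.Core

/-!
# Asymmetric almost periodicity and Bohr sets in `(L - Y) - (L - Y)`
-/

set_option autoImplicit false
set_option linter.unusedSectionVars false

namespace Pool.Agent.H89.BH

open Finset Pool.Agent.K4H60.BZ
open scoped Pointwise BigOperators ComplexConjugate

variable {G : Type*} [AddCommGroup G] [Fintype G] [DecidableEq G]

/-- The sampling lemma for three sets. -/
theorem samp_asym (L Y S : Finset G) (hL : L.Nonempty) (hY : Y.Nonempty) (hS : S.Nonempty) (q m : ℕ) (hq : 0 < q)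
    (hm : 0 < m) (hK : 4 * ((L - Y - L).card : ℝ) ≤ Real.exp q * Y.card) :
    ∃ T ⊆ S, (S.card : ℝ) * (L.card : ℝ) ^ (1000 * q * m ^ 2) ≤
        2 * ((L + S).card : ℝ) ^ (1000 * q * m ^ 2) * T.card ∧
      ∀ s s' : Fin m → G, (∀ i, s i ∈ T) → (∀ i, s' i ∈ T) →
        3 / 4 * ((L.card : ℝ) * Y.card) ≤ ∑ a ∈ L, ∑ b ∈ Y, ind (L - Y) (a - b + ∑ i, (s i - s' i)) := by
  obtain ⟨n, hn⟩ : ∃ n : ℕ, n = 1000 * q * m ^ 2 := ⟨_, rfl⟩
  have hn0 : 0 < n := by rw [hn]; positivity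
  have hLpos : (0 : ℝ) < L.card := by exact_mod_cast hL.card_pos
  have hYpos : (0 : ℝ) < Y.card := by exact_mod_cast hY.card_pos
  have hnpos : (0 : ℝ) < n := by exact_mod_cast hn0
  obtain ⟨T, hTS, hcard, F, hF⟩ := sampled L (L - Y) S hL (hL.sub hY) hS n q hn0 hq
  rw [← hn]
  refine ⟨T, hTS, ?_, ?_⟩
  · exact_mod_cast hcard
  intro s s' hs hs'
  obtain ⟨y, hy⟩ : ∃ y, y = ∑ i, (s i - s' i) := ⟨_, rfl⟩
  obtain ⟨M, hM⟩ : ∃ M : ℝ, M = 4 * ((L - Y - L).card : ℝ) * (2 * Real.exp 1 * q * n) ^ q := ⟨_, rfl⟩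
  rw [← hM] at hF
  have hM0 : 0 ≤ M := by rw [hM]; positivity
  have h1 := almost L (L - Y) T F n q hq M hF m s s' hs hs'
  rw [← hy] at h1
  have h2 : ∑ z, (n * hh L (L - Y) (z + y) - n * hh L (L - Y) z) ^ (2 * q) ≤ (2 * m) ^ (2 * q) * M := by
    rw [← nrm_pow q hq]
    have h3 : 0 ≤ nrm (2 * q : ℝ) (fun z => n * hh L (L - Y) (z + y) - n * hh L (L - Y) z) := by
      unfold nrm
      exact Real.rpow_nonneg (sum_nonneg fun z _ => Real.rpow_nonneg (abs_nonneg _) _) _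
    calc _ ≤ (2 * m * M ^ (1 / (2 * q : ℝ))) ^ (2 * q) := by gcongr
      _ = _ := by
        rw [mul_pow]
        congr 1
        rw [← Real.rpow_natCast, ← Real.rpow_mul hM0]
        have hq' : (0 : ℝ) < q := by exact_mod_cast hq
        have : 1 / (2 * (q : ℝ)) * ((2 * q : ℕ) : ℝ) = 1 := by push_cast; field_simp
        rw [this, Real.rpow_one]
  obtain ⟨c, hc⟩ : ∃ c : G → ℝ, c = fun b => |n * hh L (L - Y) (-b + y) - n * hh L (L - Y) (-b)| := ⟨_, rfl⟩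
  have h3 : ∑ b ∈ Y, (c b) ^ (2 * q) ≤ (2 * m) ^ (2 * q) * M := by
    refine le_trans ?_ h2
    have e1 : ∀ b, (c b) ^ (2 * q) = (n * hh L (L - Y) (-b + y) - n * hh L (L - Y) (-b)) ^ (2 * q) := by
      intro b
      rw [hc, pow_mul, pow_mul, sq_abs]
    simp_rw [e1]
    have e2 : ∀ b, 0 ≤ (n * hh L (L - Y) (-b + y) - n * hh L (L - Y) (-b)) ^ (2 * q) := by
      intro b
      rw [pow_mul]; positivity
    calc _ ≤ ∑ b, (n * hh L (L - Y) (-b + y) - n * hh L (L - Y) (-b)) ^ (2 * q) :=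
          sum_le_sum_of_subset_of_nonneg (subset_univ _) fun b _ _ => e2 b
      _ = _ := Equiv.sum_comp (Equiv.neg G) (fun z => (n * hh L (L - Y) (z + y) - n * hh L (L - Y) z) ^ (2 * q))
  have hc0 : ∀ b, 0 ≤ c b := by intro b; rw [hc]; exact abs_nonneg _
  have h4 : (∑ b ∈ Y, c b) ^ (2 * q) ≤ (Y.card : ℝ) ^ (2 * q) * ((2 * m) ^ (2 * q) * (Real.exp q * (2 * Real.exp 1 * q * n) ^ q)) := by
    have e1 := pow_sum_div_card_le_sum_pow (s := Y) (f := c) (fun b _ => hc0 b) (2 * q - 1)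
    have e2 : 2 * q - 1 + 1 = 2 * q := by omega
    rw [e2, div_le_iff₀ (by positivity)] at e1
    refine e1.trans ?_
    calc (∑ b ∈ Y, c b ^ (2 * q)) * (Y.card : ℝ) ^ (2 * q - 1)
        ≤ ((2 * m) ^ (2 * q) * M) * (Y.card : ℝ) ^ (2 * q - 1) := by gcongr
      _ ≤ ((2 * m) ^ (2 * q) * ((Real.exp q * Y.card) * (2 * Real.exp 1 * q * n) ^ q)) * (Y.card : ℝ) ^ (2 * q - 1) := by
          rw [hM]
          gcongr
      _ = (Y.card : ℝ) ^ (2 * q - 1 + 1) * ((2 * m) ^ (2 * q) * (Real.exp q * (2 * Real.exp 1 * q * n) ^ q)) := by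
          rw [pow_succ]; ring
      _ = _ := by rw [e2]
  have h5 : (Y.card : ℝ) ^ (2 * q) * ((2 * m) ^ (2 * q) * (Real.exp q * (2 * Real.exp 1 * q * n) ^ q)) ≤
      (Y.card * n / 4) ^ (2 * q) := by
    have e1 : Real.exp (q : ℝ) = (Real.exp 1) ^ q := by rw [← Real.exp_nat_mul, mul_one]
    rw [e1, pow_mul, pow_mul, pow_mul, ← mul_pow, ← mul_pow, ← mul_pow]
    apply pow_le_pow_left₀ (by positivity)
    have e2 : (Real.exp 1) ^ 2 ≤ 7.4 := by
      have := Real.exp_one_lt_d9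
      have h0 := Real.exp_pos 1
      nlinarith
    have e3 : (n : ℝ) = 1000 * q * m ^ 2 := by rw [hn]; push_cast; ring
    have e4 : (Y.card : ℝ) ^ 2 * ((2 * m) ^ 2 * (Real.exp 1 * (2 * Real.exp 1 * q * n))) =
        (Y.card : ℝ) ^ 2 * n * (8 * q * m ^ 2 * (Real.exp 1) ^ 2) := by ring
    rw [e4]
    have e5 : (Y.card * n / 4 : ℝ) ^ 2 = (Y.card : ℝ) ^ 2 * n * (n / 16) := by ring
    rw [e5]
    have e6 : 8 * q * m ^ 2 * (Real.exp 1) ^ 2 ≤ (n : ℝ) / 16 := by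
      have hqm : (0 : ℝ) ≤ (q : ℝ) * m ^ 2 := by positivity
      rw [e3]
      nlinarith
    gcongr
  have h6 : ∑ b ∈ Y, c b ≤ Y.card * n / 4 := by
    have := h4.trans h5
    exact le_of_pow_le_pow_left₀ (by omega) (by positivity) this
  have h7 : ∀ b ∈ Y, hh L (L - Y) (-b) = 1 := by
    intro b hb
    unfold hh
    have : ∀ a ∈ L, ind (L - Y) (a + -b) = 1 := by
      intro a ha
      unfold ind
      rw [if_pos]
      rw [← sub_eq_add_neg]
      exact sub_mem_sub ha hb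
    rw [sum_congr rfl this]
    simp only [sum_const, nsmul_eq_mul, mul_one]
    exact div_self hLpos.ne'
  have h8 : ∑ b ∈ Y, (1 - hh L (L - Y) (-b + y)) ≤ Y.card / 4 := by
    have e1 : ∀ b ∈ Y, n * (1 - hh L (L - Y) (-b + y)) ≤ c b := by
      intro b hb
      rw [hc]
      simp only
      rw [h7 b hb, abs_sub_comm]
      refine le_trans (le_of_eq ?_) (le_abs_self _)
      ring
    have e2 : n * ∑ b ∈ Y, (1 - hh L (L - Y) (-b + y)) ≤ n * (Y.card / 4) := by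
      rw [mul_sum]
      refine (sum_le_sum e1).trans (h6.trans (le_of_eq ?_))
      ring
    exact le_of_mul_le_mul_left e2 hnpos
  rw [← hy, sum_comm]
  have h9 : ∀ b ∈ Y, ∑ a ∈ L, ind (L - Y) (a - b + y) = L.card * hh L (L - Y) (-b + y) := by
    intro b _
    unfold hh
    rw [mul_div_cancel₀ _ hLpos.ne']
    apply sum_congr rfl
    intro a _
    congr 1
    abel
  rw [sum_congr rfl h9, ← mul_sum]
  rw [sum_sub_distrib] at h8
  simp only [sum_const, nsmul_eq_mul, mul_one] at h8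
  have h10 : 3 / 4 * (Y.card : ℝ) ≤ ∑ b ∈ Y, hh L (L - Y) (-b + y) := by linarith
  calc 3 / 4 * ((L.card : ℝ) * Y.card) = L.card * (3 / 4 * (Y.card : ℝ)) := by ring
    _ ≤ _ := by gcongr

/-- Cauchy-Schwarz for the Fourier coefficients of two sets. -/
theorem cs_fourier (D Y : Finset G) :
    ∑ ψ : AddChar G ℂ, ‖∑ w ∈ D, ψ w‖ * ‖∑ a ∈ Y, ψ a‖ ≤
      Fintype.card G * Real.sqrt (D.card * Y.card) := by
  classical
  have h1 := Finset.sum_mul_sq_le_sq_mul_sq (univ : Finset (AddChar G ℂ)) (fun ψ => ‖∑ w ∈ D, ψ w‖)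
    (fun ψ => ‖∑ a ∈ Y, ψ a‖)
  rw [parseval_set, parseval_set] at h1
  have h2 : (∑ ψ : AddChar G ℂ, ‖∑ w ∈ D, ψ w‖ * ‖∑ a ∈ Y, ψ a‖) ^ 2 ≤
      ((Fintype.card G : ℝ) * Real.sqrt (D.card * Y.card)) ^ 2 := by
    refine h1.trans (le_of_eq ?_)
    rw [mul_pow, Real.sq_sqrt (by positivity)]
    ring
  exact (abs_le_of_sq_le_sq' h2 (by positivity)).2

theorem core_asym (L Y T : Finset G) (hL : L.Nonempty) (hY : Y.Nonempty) (hT : T.Nonempty) (m : ℕ)
    (hm : 32 ^ 2 * ((L - Y).card : ℝ) ≤ 16 ^ m * Y.card)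
    (hAP : ∀ s s' : Fin m → G, (∀ i, s i ∈ T) → (∀ i, s' i ∈ T) →
        3 / 4 * ((L.card : ℝ) * Y.card) ≤ ∑ a ∈ L, ∑ b ∈ Y, ind (L - Y) (a - b + ∑ i, (s i - s' i))) :
    ∃ Λ : Finset (AddChar G ℂ), (Λ.card : ℝ) ≤ 8 * Real.log (Fintype.card G / T.card) ∧
      ∀ x : G, (∀ ψ ∈ Λ, ‖ψ x - 1‖ ≤ 1 / (216 * (Λ.card + 1) ^ 3)) →
        ∃ a₁ ∈ L, ∃ a₂ ∈ Y, ∃ a₃ ∈ L, ∃ a₄ ∈ Y, x = (a₁ - a₂) - (a₃ - a₄) := by
  classical
  have hLpos : (0 : ℝ) < L.card := by exact_mod_cast hL.card_pos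
  have hYpos : (0 : ℝ) < Y.card := by exact_mod_cast hY.card_pos
  have hTpos : (0 : ℝ) < T.card := by exact_mod_cast hT.card_pos
  have hGpos : (0 : ℝ) < Fintype.card G := by exact_mod_cast Fintype.card_pos
  obtain ⟨Λ, hΛ, hspan⟩ := spec_span T hT
  refine ⟨Λ, hΛ, ?_⟩
  intro x hx
  obtain ⟨P, hP⟩ : ∃ P : Finset (Fin m → G), P = Fintype.piFinset (fun _ : Fin m => T) := ⟨_, rfl⟩
  have hPcard : (P.card : ℝ) = (T.card : ℝ) ^ m := by
    rw [hP, Fintype.card_piFinset, prod_const, card_univ, Fintype.card_fin]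
    push_cast
    rfl
  have hmemP : ∀ s, s ∈ P ↔ ∀ i, s i ∈ T := by
    intro s
    rw [hP, Fintype.mem_piFinset]
  -- the index set
  obtain ⟨I, hI⟩ : ∃ I : Finset ((G × G) × ((Fin m → G) × (Fin m → G))), I = (L ×ˢ Y) ×ˢ (P ×ˢ P) := ⟨_, rfl⟩
  have hIcard : (I.card : ℝ) = ((L.card : ℝ) * Y.card) * ((T.card : ℝ) ^ m) ^ 2 := by
    rw [hI, card_product, card_product, card_product]
    push_cast
    rw [hPcard]
    ring
  have hIpos : (0 : ℝ) < I.card := by rw [hIcard]; positivity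
  obtain ⟨pt, hpt⟩ : ∃ pt : ((G × G) × ((Fin m → G) × (Fin m → G))) → G,
    pt = fun j => j.1.1 - j.1.2 + ∑ i, (j.2.1 i - j.2.2 i) := ⟨_, rfl⟩
  obtain ⟨hR, hhR⟩ : ∃ hR : G → ℝ, hR = fun y => (∑ j ∈ I, ind (L - Y) (pt j + y)) / I.card := ⟨_, rfl⟩
  have hR0 : ∀ y, 0 ≤ hR y := by
    intro y
    rw [hhR]
    exact div_nonneg (sum_nonneg fun j _ => ind_nonneg _ _) (Nat.cast_nonneg _)
  have hR1 : ∀ y, hR y ≤ 1 := by
    intro y
    rw [hhR]
    apply div_le_one_of_le₀ _ (Nat.cast_nonneg _)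
    calc _ ≤ ∑ j ∈ I, (1 : ℝ) := sum_le_sum fun j _ => ind_le_one _ _
      _ = _ := by simp
  have hRzero : 3 / 4 ≤ hR 0 := by
    rw [hhR]
    simp only
    rw [le_div_iff₀ hIpos]
    have e1 : ∑ j ∈ I, ind (L - Y) (pt j + 0) =
        ∑ p ∈ P ×ˢ P, ∑ a ∈ L, ∑ b ∈ Y, ind (L - Y) (a - b + ∑ i, (p.1 i - p.2 i)) := by
      rw [hI, sum_product_right]
      apply sum_congr rfl
      intro p _
      rw [sum_product]
      apply sum_congr rfl
      intro a _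
      apply sum_congr rfl
      intro b _
      rw [hpt, add_zero]
    rw [e1]
    calc 3 / 4 * (I.card : ℝ) = ∑ p ∈ P ×ˢ P, 3 / 4 * ((L.card : ℝ) * Y.card) := by
          rw [sum_const, card_product, nsmul_eq_mul, hIcard]
          push_cast
          rw [hPcard]
          ring
      _ ≤ _ := by
          apply sum_le_sum
          intro p hp
          rw [mem_product] at hp
          exact hAP p.1 p.2 ((hmemP _).1 hp.1) ((hmemP _).1 hp.2)
  -- Fourier coefficients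
  obtain ⟨co, hco⟩ : ∃ co : AddChar G ℂ → ℂ, co = fun ψ => ((∑ w ∈ (L - Y), conj (ψ w)) / Fintype.card G) *
    (((∑ a ∈ L, ψ a) * conj (∑ b ∈ Y, ψ b)) * ((‖∑ t ∈ T, ψ t‖ ^ 2 : ℝ) : ℂ) ^ m) / (I.card : ℂ) := ⟨_, rfl⟩
  have hexp : ∀ y, ((hR y : ℝ) : ℂ) = ∑ ψ, co ψ * ψ y := by
    intro y
    rw [hhR, hco]
    push_cast
    simp_rw [ind_expand]
    rw [sum_comm, sum_div]
    apply sum_congr rfl
    intro ψ _
    have e1 : ∀ j ∈ I, ((∑ w ∈ (L - Y), conj (ψ w)) / Fintype.card G) * ψ (pt j + y) =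
        ((∑ w ∈ (L - Y), conj (ψ w)) / Fintype.card G) * ψ y * (ψ (j.1.1 - j.1.2) * ψ (∑ i, (j.2.1 i - j.2.2 i))) := by
      intro j _
      rw [hpt, AddChar.map_add_eq_mul, AddChar.map_add_eq_mul]
      ring
    rw [sum_congr rfl e1, ← mul_sum]
    have e2 : ∑ j ∈ I, (ψ (j.1.1 - j.1.2) * ψ (∑ i, (j.2.1 i - j.2.2 i))) =
        (((∑ a ∈ L, ψ a) * conj (∑ b ∈ Y, ψ b)) * ((‖∑ t ∈ T, ψ t‖ ^ 2 : ℝ) : ℂ) ^ m) := by
      rw [hI, sum_product]
      have e3 := sum_mul_sum (L ×ˢ Y) (P ×ˢ P) (fun p : G × G => ψ (p.1 - p.2))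
        (fun p : (Fin m → G) × (Fin m → G) => ψ (∑ i, (p.1 i - p.2 i)))
      refine e3.symm.trans ?_
      congr 1
      · rw [sum_product]
        rw [map_sum, sum_mul_sum]
        apply sum_congr rfl
        intro a _
        apply sum_congr rfl
        intro b _
        rw [sub_eq_add_neg, AddChar.map_add_eq_mul, AddChar.map_neg_eq_conj]
      · rw [← sum_tuples, sum_product, hP]
    rw [e2]
    push_cast
    ring
  -- the set S
  obtain ⟨S, hS⟩ : ∃ S : Set (AddChar G ℂ), S = {ψ | (T.card : ℝ) / 2 ≤ ‖∑ t ∈ T, ψ t‖} := ⟨_, rfl⟩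
  have hmass : ∑ ψ ∈ univ.filter (fun ψ => ψ ∉ S), ‖co ψ‖ ≤ 1 / 32 := by
    have e1 : ∀ ψ ∈ univ.filter (fun ψ => ψ ∉ S), ‖co ψ‖ ≤
        (1 / (Fintype.card G * (Y.card : ℝ) * 4 ^ m)) * (‖∑ w ∈ (L - Y), ψ w‖ * ‖∑ b ∈ Y, ψ b‖) := by
      intro ψ hψ
      rw [mem_filter, hS] at hψ
      have hψ2 : ‖∑ t ∈ T, ψ t‖ ≤ (T.card : ℝ) / 2 := by
        by_contra hcon
        exact hψ.2 (le_of_lt (not_le.1 hcon))
      have f0 : ‖∑ w ∈ (L - Y), conj (ψ w)‖ = ‖∑ w ∈ (L - Y), ψ w‖ := by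
        rw [← map_sum, RCLike.norm_conj]
      have f1 : ‖∑ a ∈ L, ψ a‖ ≤ (L.card : ℝ) := by
        refine (norm_sum_le _ _).trans (le_of_eq ?_)
        simp [AddChar.norm_apply]
      have f2 : (‖∑ t ∈ T, ψ t‖ ^ 2) ^ m ≤ ((T.card : ℝ) ^ m) ^ 2 / 4 ^ m := by
        calc (‖∑ t ∈ T, ψ t‖ ^ 2) ^ m ≤ (((T.card : ℝ) / 2) ^ 2) ^ m := by gcongr
          _ = _ := by
            rw [div_pow, div_pow, ← pow_mul, mul_comm 2 m, pow_mul]
            norm_num
      rw [hco]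
      simp only [norm_div, norm_mul, norm_pow, Complex.norm_real, norm_norm, Complex.norm_natCast,
        RCLike.norm_conj]
      rw [hIcard, f0]
      calc ‖∑ w ∈ (L - Y), ψ w‖ / (Fintype.card G : ℝ) * (‖∑ a ∈ L, ψ a‖ * ‖∑ b ∈ Y, ψ b‖ * (‖∑ t ∈ T, ψ t‖ ^ 2) ^ m) /
            (((L.card : ℝ) * Y.card) * ((T.card : ℝ) ^ m) ^ 2)
          ≤ ‖∑ w ∈ (L - Y), ψ w‖ / (Fintype.card G : ℝ) * ((L.card : ℝ) * ‖∑ b ∈ Y, ψ b‖ * (((T.card : ℝ) ^ m) ^ 2 / 4 ^ m)) /
            (((L.card : ℝ) * Y.card) * ((T.card : ℝ) ^ m) ^ 2) := by gcongr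
        _ = _ := by
          field_simp
    refine (sum_le_sum e1).trans ?_
    calc _ ≤ ∑ ψ : AddChar G ℂ, (1 / (Fintype.card G * (Y.card : ℝ) * 4 ^ m)) *
          (‖∑ w ∈ (L - Y), ψ w‖ * ‖∑ b ∈ Y, ψ b‖) :=
          sum_le_sum_of_subset_of_nonneg (subset_univ _) fun ψ _ _ => by positivity
      _ ≤ (1 / (Fintype.card G * (Y.card : ℝ) * 4 ^ m)) *
          (Fintype.card G * Real.sqrt ((L - Y).card * Y.card)) := by
          rw [← mul_sum]
          gcongr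
          exact cs_fourier _ _
      _ = Real.sqrt ((L - Y).card * Y.card) / (Y.card * 4 ^ m) := by
          field_simp
      _ ≤ 1 / 32 := by
          rw [div_le_div_iff₀ (by positivity) (by norm_num), one_mul]
          have h1 : Real.sqrt ((L - Y).card * Y.card) ≤ (Y.card * 4 ^ m) / 32 := by
            rw [Real.sqrt_le_left (by positivity)]
            have e3 : ((Y.card : ℝ) * 4 ^ m / 32) ^ 2 = Y.card * (16 ^ m * Y.card) / 32 ^ 2 := by
              rw [div_pow, mul_pow, ← pow_mul, mul_comm m 2, pow_mul]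
              norm_num
              ring
            rw [e3, le_div_iff₀ (by norm_num)]
            calc ((L - Y).card : ℝ) * (Y.card : ℝ) * 32 ^ 2 = (Y.card : ℝ) * (32 ^ 2 * ((L - Y).card : ℝ)) := by
                  ring
              _ ≤ (Y.card : ℝ) * (16 ^ m * (Y.card : ℝ)) := by gcongr
          linarith
  -- the kernel
  obtain ⟨t, ht, hslow⟩ := exists_slow Λ
  obtain ⟨δ, hδ⟩ : ∃ δ : ℝ, δ = 1 / (216 * ((Λ.card : ℝ) + 1) ^ 3) := ⟨_, rfl⟩
  rw [← hδ] at hx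
  have hδ0 : 0 ≤ δ := by rw [hδ]; positivity
  have hbound : ∀ s ≤ t + 1, ∀ q ∈ QQ Λ s, ‖q x - 1‖ ≤ 1 / 24 := by
    intro s hs q hq
    refine (QQ_bound Λ s x δ hδ0 hx q hq).trans ?_
    have h1 : (s : ℝ) ≤ 9 * ((Λ.card : ℝ) + 1) ^ 2 := by
      have : s ≤ 9 * (Λ.card + 1) ^ 2 := by
        have : 1 ≤ (Λ.card + 1) ^ 2 := Nat.one_le_pow _ _ (by omega)
        omega
      exact_mod_cast this
    have h2 : (Λ.card : ℝ) ≤ (Λ.card : ℝ) + 1 := by linarith
    calc (Λ.card : ℝ) * (s * δ) ≤ ((Λ.card : ℝ) + 1) * ((9 * ((Λ.card : ℝ) + 1) ^ 2) * δ) := by gcongr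
      _ = 1 / 24 := by
        rw [hδ]
        field_simp
        norm_num
  have hker := kernel (fun y => ((hR y : ℝ) : ℂ)) co hexp (by
      intro y
      rw [Complex.norm_real, Real.norm_eq_abs, abs_of_nonneg (hR0 y)]
      exact hR1 y) S (QQ Λ t) (QQ Λ (t + 1)) (QQ_nonempty Λ t) hslow (by
      intro ψ hψ q hq
      rw [hS] at hψ
      obtain ⟨ε, hε, he⟩ := hspan ψ hψ
      rw [he]
      exact add_mem_QQ Λ t ε hε q hq) x (1 / 24) (by norm_num)
      (fun q hq => hbound t (by omega) q hq) (fun q hq => hbound (t + 1) le_rfl q hq)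
  have hRx : 1 / 2 < hR x := by
    have e1 : ((hR x : ℝ) : ℂ) - ((hR 0 : ℝ) : ℂ) = ((hR x - hR 0 : ℝ) : ℂ) := by push_cast; rfl
    rw [e1, Complex.norm_real, Real.norm_eq_abs] at hker
    have h1 := abs_le.1 (hker.trans (add_le_add (mul_le_mul_of_nonneg_left hmass (by norm_num)) le_rfl))
    linarith [h1.1]
  -- conclusion
  have hfin : ∃ j ∈ I, pt j ∈ L - Y ∧ pt j + x ∈ L - Y := by
    by_contra hcon
    push Not at hcon
    have h1 : ∀ j ∈ I, ind (L - Y) (pt j + 0) + ind (L - Y) (pt j + x) ≤ 1 := by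
      intro j hj
      rw [add_zero]
      unfold ind
      by_cases h : pt j ∈ L - Y
      · rw [if_pos h, if_neg (hcon j hj h)]
        norm_num
      · rw [if_neg h]
        split_ifs <;> norm_num
    have h2 : hR 0 + hR x ≤ 1 := by
      rw [hhR]
      simp only
      rw [← add_div, ← sum_add_distrib, div_le_one hIpos]
      calc _ ≤ ∑ j ∈ I, (1 : ℝ) := sum_le_sum h1
        _ = _ := by simp
    linarith
  obtain ⟨j, _, h1, h2⟩ := hfin
  rw [mem_sub] at h1 h2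
  obtain ⟨a, ha, b, hb, hab⟩ := h1
  obtain ⟨c, hc, d, hd, hcd⟩ := h2
  refine ⟨c, hc, d, hd, a, ha, b, hb, ?_⟩
  rw [hab, hcd]
  abel

/-- **Asymmetric version.** `L`, `Y` and `S` are nonempty sets with `|L - Y - L| ≤ e^p |Y|` and `|L + S| ≤ e^k |L|`. -/
theorem asym (L Y S : Finset G) (hL : L.Nonempty) (hY : Y.Nonempty) (hS : S.Nonempty) (p k : ℝ) (hp : 0 ≤ p)
    (hk : 0 ≤ k) (h1 : ((L - Y - L).card : ℝ) ≤ Real.exp p * Y.card)
    (h2 : ((L + S).card : ℝ) ≤ Real.exp k * L.card) :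
    ∃ Λ : Finset (AddChar G ℂ),
      (Λ.card : ℝ) ≤ 8 * (Real.log (Fintype.card G / S.card) + 1 + 48000 * (1 + p) ^ 3 * k) ∧
      ∀ x : G, (∀ ψ ∈ Λ, ‖ψ x - 1‖ ≤ 1 / (216 * ((Λ.card : ℝ) + 1) ^ 3)) →
        ∃ a₁ ∈ L, ∃ a₂ ∈ Y, ∃ a₃ ∈ L, ∃ a₄ ∈ Y, x = (a₁ - a₂) - (a₃ - a₄) := by
  have hLpos : (0 : ℝ) < L.card := by exact_mod_cast hL.card_pos
  have hYpos : (0 : ℝ) < Y.card := by exact_mod_cast hY.card_pos
  have hSpos : (0 : ℝ) < S.card := by exact_mod_cast hS.card_pos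
  have hGpos : (0 : ℝ) < Fintype.card G := by exact_mod_cast Fintype.card_pos
  -- parameters
  obtain ⟨q, hq⟩ : ∃ q : ℕ, q = ⌈2 + p⌉₊ := ⟨_, rfl⟩
  obtain ⟨m, hm⟩ : ∃ m : ℕ, m = ⌈3 + p / 2⌉₊ := ⟨_, rfl⟩
  have hq1 : 2 + p ≤ q := by rw [hq]; exact Nat.le_ceil _
  have hq2 : (q : ℝ) ≤ 3 * (1 + p) := by
    rw [hq]
    have := Nat.ceil_lt_add_one (show 0 ≤ 2 + p by positivity)
    linarith
  have hm1 : 3 + p / 2 ≤ m := by rw [hm]; exact Nat.le_ceil _
  have hm2 : (m : ℝ) ≤ 4 * (1 + p) := by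
    rw [hm]
    have := Nat.ceil_lt_add_one (show 0 ≤ 3 + p / 2 by positivity)
    linarith
  have hq0 : 0 < q := by
    have : (0 : ℝ) < q := by linarith
    exact_mod_cast this
  have hm0 : 0 < m := by
    have : (0 : ℝ) < m := by linarith
    exact_mod_cast this
  have c1 : 4 * ((L - Y - L).card : ℝ) ≤ Real.exp q * Y.card := by
    calc 4 * ((L - Y - L).card : ℝ) ≤ 4 * (Real.exp p * Y.card) := by gcongr
      _ ≤ (Real.exp 2 * Real.exp p) * Y.card := by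
        have : (4 : ℝ) ≤ Real.exp 2 := by
          have h1 := Real.exp_one_gt_d9
          have h2 : Real.exp 2 = Real.exp 1 * Real.exp 1 := by
            rw [← Real.exp_add]; norm_num
          rw [h2]
          nlinarith
        have h3 : 4 * (Real.exp p * Y.card) = (4 * Real.exp p) * Y.card := by ring
        rw [h3]
        gcongr
      _ ≤ Real.exp q * Y.card := by
        rw [← Real.exp_add]
        gcongr
  have c0 : ((L - Y).card : ℝ) ≤ ((L - Y - L).card : ℝ) := by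
    obtain ⟨l, hl⟩ := hL
    have : (L - Y).card ≤ (L - Y - L).card := by
      have h3 : ((L - Y).image fun z => z - l) ⊆ L - Y - L := by
        intro z hz
        rw [mem_image] at hz
        obtain ⟨u, hu, rfl⟩ := hz
        exact sub_mem_sub hu hl
      rw [← card_image_of_injective (L - Y) (sub_left_injective (b := l))]
      exact card_le_card h3
    exact_mod_cast this
  have c2 : 32 ^ 2 * ((L - Y).card : ℝ) ≤ 16 ^ m * Y.card := by
    have e2 : (2 : ℝ) ≤ Real.log 16 := by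
      rw [Real.le_log_iff_exp_le (by norm_num)]
      have h1 := Real.exp_one_lt_d9
      have h2 : Real.exp 2 = Real.exp 1 * Real.exp 1 := by
        rw [← Real.exp_add]; norm_num
      have h3 := Real.exp_pos 1
      rw [h2]
      nlinarith
    have e3 : 16 ^ 3 * Real.exp p ≤ (16 : ℝ) ^ m := by
      have e1 : (16 : ℝ) ^ m = Real.exp (m * Real.log 16) := by
        rw [mul_comm, Real.exp_mul, Real.exp_log (by norm_num), Real.rpow_natCast]
      have e4 : (16 : ℝ) ^ 3 = Real.exp (3 * Real.log 16) := by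
        rw [mul_comm, Real.exp_mul, Real.exp_log (by norm_num)]
        norm_num
      rw [e1, e4, ← Real.exp_add]
      apply Real.exp_le_exp.2
      have h5 : (3 + p / 2) * Real.log 16 ≤ m * Real.log 16 := by gcongr
      have h6 : p ≤ p / 2 * Real.log 16 := by nlinarith
      linarith
    calc 32 ^ 2 * ((L - Y).card : ℝ) ≤ 32 ^ 2 * (Real.exp p * Y.card) := by
          gcongr
          exact c0.trans h1
      _ ≤ (16 ^ 3 * Real.exp p) * Y.card := by
          have : 0 ≤ Real.exp p * Y.card := by positivity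
          nlinarith
      _ ≤ 16 ^ m * Y.card := by gcongr
  obtain ⟨T, _, hTcard, hAP⟩ := samp_asym L Y S hL hY hS q m hq0 hm0 c1
  obtain ⟨n, hn⟩ : ∃ n : ℕ, n = 1000 * q * m ^ 2 := ⟨_, rfl⟩
  rw [← hn] at hTcard
  have hn2 : (n : ℝ) ≤ 48000 * (1 + p) ^ 3 := by
    rw [hn]
    push_cast
    calc 1000 * (q : ℝ) * (m : ℝ) ^ 2 ≤ 1000 * (3 * (1 + p)) * (4 * (1 + p)) ^ 2 := by gcongr
      _ = _ := by ring
  have hT : T.Nonempty := by
    rw [nonempty_iff_ne_empty]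
    rintro rfl
    rw [card_empty, Nat.cast_zero, mul_zero] at hTcard
    have : (0 : ℝ) < (S.card : ℝ) * (L.card : ℝ) ^ n := by positivity
    linarith
  have hTpos : (0 : ℝ) < T.card := by exact_mod_cast hT.card_pos
  have hTlow : (S.card : ℝ) ≤ 2 * Real.exp (k * n) * T.card := by
    have h3 : (S.card : ℝ) * (L.card : ℝ) ^ n ≤ 2 * ((Real.exp k * L.card) ^ n) * T.card := by
      refine hTcard.trans ?_
      gcongr
    have h4 : (L.card : ℝ) ^ n * S.card ≤ (L.card : ℝ) ^ n * (2 * Real.exp (k * n) * T.card) := by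
      calc (L.card : ℝ) ^ n * S.card = (S.card : ℝ) * (L.card : ℝ) ^ n := by ring
        _ ≤ 2 * ((Real.exp k * L.card) ^ n) * T.card := h3
        _ = _ := by
          have : Real.exp (k * n) = (Real.exp k) ^ n := by
            rw [← Real.exp_nat_mul]
            congr 1
            ring
          rw [this, mul_pow]
          ring
    exact le_of_mul_le_mul_left h4 (by positivity)
  obtain ⟨Λ, hΛ, hmain⟩ := core_asym L Y T hL hY hT m c2 hAP
  refine ⟨Λ, ?_, hmain⟩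
  refine hΛ.trans ?_
  have hlog : Real.log (Fintype.card G / T.card) ≤ Real.log (Fintype.card G / S.card) + 1 + 48000 * (1 + p) ^ 3 * k := by
    have h3 : (Fintype.card G : ℝ) / T.card ≤ (Fintype.card G / S.card) * (2 * Real.exp (k * n)) := by
      rw [div_mul_eq_mul_div, div_le_div_iff₀ hTpos hSpos]
      calc (Fintype.card G : ℝ) * S.card ≤ Fintype.card G * (2 * Real.exp (k * n) * T.card) := by gcongr
        _ = _ := by ring
    have h4 := Real.log_le_log (by positivity) h3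
    rw [Real.log_mul (by positivity) (by positivity), Real.log_mul (by norm_num) (Real.exp_pos _).ne',
      Real.log_exp] at h4
    have h5 : Real.log 2 ≤ 1 := by linarith [Real.log_two_lt_d9]
    have h6 : k * n ≤ 48000 * (1 + p) ^ 3 * k := by
      calc k * n ≤ k * (48000 * (1 + p) ^ 3) := by gcongr
        _ = _ := by ring
    linarith
  linarith

end Pool.Agent.H89.BH
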