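import Pool.Graph.R_pool_sql_team_seeded_c8625f6e.K4H60.BZ.Core

/-!
# Coincidences and Fourier coefficients
-/

set_option autoImplicit false
set_option linter.unusedSectionVars false

namespace Pool.Agent.H89.BH

open Finset Pool.Agent.K4H60.BZ
open scoped Pointwise BigOperators ComplexConjugate

/-- Cauchy-Schwarz for the number of coincidences -/
theorem coin_ge {ι H : Type*} [DecidableEq H] (s : Finset ι) (f : ι → H) (Z : Finset H) (hf : ∀ i ∈ s, f i ∈ Z) :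
    (s.card : ℝ) ^ 2 ≤ Z.card * ∑ i ∈ s, ∑ j ∈ s, (if f i = f j then (1 : ℝ) else 0) := by
  classical
  have h1 : (s.card : ℝ) = ∑ z ∈ Z, ((s.filter fun i => f i = z).card : ℝ) := by
    have := card_eq_sum_card_fiberwise (s := s) (t := Z) (f := f) (fun i hi => hf i hi)
    exact_mod_cast this
  have h2 : ∑ i ∈ s, ∑ j ∈ s, (if f i = f j then (1 : ℝ) else 0) =
      ∑ z ∈ Z, ((s.filter fun i => f i = z).card : ℝ) ^ 2 := by
    rw [← sum_fiberwise_of_maps_to (s := s) (t := Z) (g := f) hf]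
    apply sum_congr rfl
    intro z _
    have e1 : ∀ i ∈ s.filter (fun i => f i = z), ∑ j ∈ s, (if f i = f j then (1 : ℝ) else 0) =
        ((s.filter fun i => f i = z).card : ℝ) := by
      intro i hi
      rw [mem_filter] at hi
      rw [← sum_filter, sum_const, nsmul_eq_mul, mul_one, hi.2]
      congr 2
      ext j
      rw [mem_filter, mem_filter]
      constructor
      · rintro ⟨a, b⟩; exact ⟨a, b.symm⟩
      · rintro ⟨a, b⟩; exact ⟨a, b.symm⟩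
    rw [sum_congr rfl e1, sum_const, nsmul_eq_mul]
    ring
  rw [h2, h1]
  exact sq_sum_le_card_mul_sum_sq

variable {G : Type*} [AddCommGroup G] [Fintype G] [DecidableEq G]

theorem four_dual {ι : Type*} (s : Finset ι) (f : ι → G) :
    ∑ ψ : AddChar G ℂ, ‖∑ i ∈ s, ψ (f i)‖ ^ 2 =
      Fintype.card G * ∑ i ∈ s, ∑ j ∈ s, (if f i = f j then (1 : ℝ) else 0) := by
  classical
  have h1 : ((∑ ψ : AddChar G ℂ, ‖∑ i ∈ s, ψ (f i)‖ ^ 2 : ℝ) : ℂ) =
      ((Fintype.card G * ∑ i ∈ s, ∑ j ∈ s, (if f i = f j then (1 : ℝ) else 0) : ℝ) : ℂ) := by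
    push_cast
    have e1 : ∀ ψ : AddChar G ℂ, ((‖∑ i ∈ s, ψ (f i)‖ : ℝ) : ℂ) ^ 2 = ∑ i ∈ s, ∑ j ∈ s, ψ (f i - f j) := by
      intro ψ
      have : ((‖∑ i ∈ s, ψ (f i)‖ : ℝ) : ℂ) ^ 2 = (∑ i ∈ s, ψ (f i)) * conj (∑ i ∈ s, ψ (f i)) := by
        rw [Complex.mul_conj, Complex.normSq_eq_norm_sq]
        push_cast
        rfl
      rw [this, map_sum, sum_mul_sum]
      apply sum_congr rfl
      intro a _
      apply sum_congr rfl
      intro b _
      rw [sub_eq_add_neg, AddChar.map_add_eq_mul, AddChar.map_neg_eq_conj]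
    simp_rw [e1]
    rw [sum_comm, mul_sum]
    apply sum_congr rfl
    intro i _
    rw [sum_comm, mul_sum]
    apply sum_congr rfl
    intro j _
    rw [AddChar.sum_apply_eq_ite]
    split_ifs with a b b
    · simp
    · exact absurd (sub_eq_zero.1 a) b
    · exact absurd (sub_eq_zero.2 b) a
    · simp
  exact_mod_cast h1

theorem four_dual_ge {ι : Type*} (s : Finset ι) (f : ι → G) (Z : Finset G) (hf : ∀ i ∈ s, f i ∈ Z) :
    (Fintype.card G : ℝ) * (s.card : ℝ) ^ 2 ≤ Z.card * ∑ ψ : AddChar G ℂ, ‖∑ i ∈ s, ψ (f i)‖ ^ 2 := by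
  rw [four_dual]
  have h1 := coin_ge s f Z hf
  calc (Fintype.card G : ℝ) * (s.card : ℝ) ^ 2 ≤ Fintype.card G *
        (Z.card * ∑ i ∈ s, ∑ j ∈ s, (if f i = f j then (1 : ℝ) else 0)) := by gcongr
    _ = _ := by ring

theorem four_prim {ι : Type*} (s : Finset ι) (χ : ι → AddChar G ℂ) [DecidableEq (AddChar G ℂ)] :
    ∑ x : G, ‖∑ i ∈ s, χ i x‖ ^ 2 =
      Fintype.card G * ∑ i ∈ s, ∑ j ∈ s, (if χ i = χ j then (1 : ℝ) else 0) := by
  classical
  have h1 : ((∑ x : G, ‖∑ i ∈ s, χ i x‖ ^ 2 : ℝ) : ℂ) =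
      ((Fintype.card G * ∑ i ∈ s, ∑ j ∈ s, (if χ i = χ j then (1 : ℝ) else 0) : ℝ) : ℂ) := by
    push_cast
    have e1 : ∀ x : G, ((‖∑ i ∈ s, χ i x‖ : ℝ) : ℂ) ^ 2 = ∑ i ∈ s, ∑ j ∈ s, (χ i - χ j) x := by
      intro x
      have : ((‖∑ i ∈ s, χ i x‖ : ℝ) : ℂ) ^ 2 = (∑ i ∈ s, χ i x) * conj (∑ i ∈ s, χ i x) := by
        rw [Complex.mul_conj, Complex.normSq_eq_norm_sq]
        push_cast
        rfl
      rw [this, map_sum, sum_mul_sum]
      apply sum_congr rfl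
      intro a _
      apply sum_congr rfl
      intro b _
      rw [AddChar.sub_apply, AddChar.map_neg_eq_conj]
    simp_rw [e1]
    rw [sum_comm, mul_sum]
    apply sum_congr rfl
    intro i _
    rw [sum_comm, mul_sum]
    apply sum_congr rfl
    intro j _
    rw [AddChar.sum_eq_ite]
    split_ifs with a b b
    · simp
    · exact absurd (sub_eq_zero.1 a) b
    · exact absurd (sub_eq_zero.2 b) a
    · simp
  exact_mod_cast h1

theorem four_prim_ge {ι : Type*} (s : Finset ι) (χ : ι → AddChar G ℂ) (Z : Finset (AddChar G ℂ))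
    (hf : ∀ i ∈ s, χ i ∈ Z) :
    (Fintype.card G : ℝ) * (s.card : ℝ) ^ 2 ≤ Z.card * ∑ x : G, ‖∑ i ∈ s, χ i x‖ ^ 2 := by
  classical
  rw [four_prim]
  have h1 := coin_ge s χ Z hf
  calc (Fintype.card G : ℝ) * (s.card : ℝ) ^ 2 ≤ Fintype.card G *
        (Z.card * ∑ i ∈ s, ∑ j ∈ s, (if χ i = χ j then (1 : ℝ) else 0)) := by gcongr
    _ = _ := by ring

/-- sums of tuples are in the iterated sumset -/
theorem sum_mem_nsmul {H : Type*} [AddCommGroup H] [DecidableEq H] (B : Finset H) (m : ℕ) (v : Fin m → H)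
    (hv : ∀ i, v i ∈ B) : ∑ i, v i ∈ m • B := by
  induction m with
  | zero => simp
  | succ m ih =>
    rw [Fin.sum_univ_castSucc, succ_nsmul]
    exact add_mem_add (ih _ fun i => hv _) (hv _)

theorem char_tuple (B : Finset G) (m : ℕ) (ψ : AddChar G ℂ) :
    ∑ v ∈ Fintype.piFinset (fun _ : Fin m => B), ψ (∑ i, v i) = (∑ b ∈ B, ψ b) ^ m := by
  simp_rw [char_sum]
  rw [← Finset.prod_univ_sum (fun _ : Fin m => B) (fun _ a => ψ a), prod_const, card_univ, Fintype.card_fin]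

/-- the `2m`-fold energy from a small sumset -/
theorem energy_low (A B : Finset G) (hA : A.Nonempty) (hB : B.Nonempty) (m : ℕ) (K : ℝ) (hK : 0 < K)
    (hAB : ((A + m • B).card : ℝ) ≤ K * A.card) :
    1 / K ≤ ∑ ψ : AddChar G ℂ, ‖∑ a ∈ A, ψ a‖ ^ 2 / (Fintype.card G * A.card) *
      (‖∑ b ∈ B, ψ b‖ ^ 2 / (B.card : ℝ) ^ 2) ^ m := by
  classical
  have hApos : (0 : ℝ) < A.card := by exact_mod_cast hA.card_pos
  have hBpos : (0 : ℝ) < B.card := by exact_mod_cast hB.card_pos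
  have hGpos : (0 : ℝ) < Fintype.card G := by exact_mod_cast Fintype.card_pos
  obtain ⟨s, hs⟩ : ∃ s : Finset (G × (Fin m → G)), s = A ×ˢ Fintype.piFinset (fun _ : Fin m => B) := ⟨_, rfl⟩
  have hscard : (s.card : ℝ) = A.card * (B.card : ℝ) ^ m := by
    rw [hs, card_product, Fintype.card_piFinset, prod_const, card_univ, Fintype.card_fin]
    push_cast
    rfl
  have h1 := four_dual_ge s (fun p => p.1 + ∑ i, p.2 i) (A + m • B) (by
    intro p hp
    rw [hs, mem_product, Fintype.mem_piFinset] at hp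
    exact add_mem_add hp.1 (sum_mem_nsmul B m _ hp.2))
  have h2 : ∀ ψ : AddChar G ℂ, ‖∑ p ∈ s, ψ (p.1 + ∑ i, p.2 i)‖ ^ 2 =
      ‖∑ a ∈ A, ψ a‖ ^ 2 * (‖∑ b ∈ B, ψ b‖ ^ 2) ^ m := by
    intro ψ
    have e1 : ∑ p ∈ s, ψ (p.1 + ∑ i, p.2 i) = (∑ a ∈ A, ψ a) * (∑ b ∈ B, ψ b) ^ m := by
      rw [← char_tuple, sum_mul_sum, hs, sum_product]
      apply sum_congr rfl
      intro a _
      apply sum_congr rfl
      intro v _
      rw [AddChar.map_add_eq_mul]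
    rw [e1, norm_mul, norm_pow, mul_pow, ← pow_mul, ← pow_mul, mul_comm m 2]
  simp_rw [h2] at h1
  rw [hscard] at h1
  have h3 : ∀ ψ : AddChar G ℂ, ‖∑ a ∈ A, ψ a‖ ^ 2 / (Fintype.card G * A.card) *
      (‖∑ b ∈ B, ψ b‖ ^ 2 / (B.card : ℝ) ^ 2) ^ m =
      (‖∑ a ∈ A, ψ a‖ ^ 2 * (‖∑ b ∈ B, ψ b‖ ^ 2) ^ m) / (Fintype.card G * A.card * ((B.card : ℝ) ^ m) ^ 2) := by
    intro ψ
    rw [div_pow, ← pow_mul, ← pow_mul, ← pow_mul, mul_comm m 2]
    field_simp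
  simp_rw [h3]
  rw [← sum_div, div_le_div_iff₀ hK (by positivity)]
  obtain ⟨Q, hQ⟩ : ∃ Q : ℝ, Q = ∑ ψ : AddChar G ℂ, ‖∑ a ∈ A, ψ a‖ ^ 2 * (‖∑ b ∈ B, ψ b‖ ^ 2) ^ m := ⟨_, rfl⟩
  rw [← hQ] at h1 ⊢
  have hQ0 : 0 ≤ Q := by rw [hQ]; exact sum_nonneg fun ψ _ => by positivity
  have h4 : (Fintype.card G : ℝ) * (A.card * (B.card : ℝ) ^ m) ^ 2 ≤ (K * A.card) * Q :=
    h1.trans (by gcongr)
  have h5 : (A.card : ℝ) * (1 * (Fintype.card G * A.card * ((B.card : ℝ) ^ m) ^ 2)) ≤ A.card * (Q * K) := by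
    calc _ = (Fintype.card G : ℝ) * (A.card * (B.card : ℝ) ^ m) ^ 2 := by ring
      _ ≤ (K * A.card) * Q := h4
      _ = _ := by ring
  exact le_of_mul_le_mul_left h5 hApos

end Pool.Agent.H89.BH
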