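import Pool.Agent.H89.BH.Slow

/-!
# The Bohr set of the characters which are nearly constant on `B`
-/

set_option autoImplicit false
set_option linter.unusedSectionVars false

namespace Pool.Agent.H89.BH

open Finset Pool.Agent.K4H60.BZ
open scoped Pointwise BigOperators ComplexConjugate

variable {G : Type*} [AddCommGroup G] [Fintype G] [DecidableEq G]

/-- the characters with small defect -/
noncomputable def near (B : Finset G) (δ : ℝ) : Finset (AddChar G ℂ) :=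
  open Classical in univ.filter fun ψ => dfc B ψ ≤ δ * (B.card : ℝ) ^ 2

theorem mem_near (B : Finset G) (δ : ℝ) (ψ : AddChar G ℂ) : ψ ∈ near B δ ↔ dfc B ψ ≤ δ * (B.card : ℝ) ^ 2 := by
  classical
  unfold near
  rw [mem_filter]
  simp

theorem zero_mem_near (B : Finset G) (δ : ℝ) (hδ : 0 ≤ δ) : (0 : AddChar G ℂ) ∈ near B δ := by
  rw [mem_near, dfc_zero]
  positivity

open Classical in
theorem dfc_nsmul (B : Finset G) (δ : ℝ) (hδ : 0 ≤ δ) (k : ℕ) :
    ∀ μ ∈ k • near B δ, dfc B μ ≤ (k : ℝ) ^ 2 * (δ * (B.card : ℝ) ^ 2) := by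
  induction k with
  | zero =>
    intro μ hμ
    rw [zero_nsmul, mem_zero] at hμ
    rw [hμ, dfc_zero]
    positivity
  | succ k ih =>
    intro μ hμ
    rw [succ_nsmul, mem_add] at hμ
    obtain ⟨μ', hμ', l, hl, rfl⟩ := hμ
    have h1 := ih μ' hμ'
    rw [mem_near] at hl
    have hq : 0 ≤ δ * (B.card : ℝ) ^ 2 := by positivity
    rcases Nat.eq_zero_or_pos k with hk | hk
    · subst hk
      rw [zero_nsmul, mem_zero] at hμ'
      rw [hμ', zero_add]
      simpa using hl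
    · have hk' : (0 : ℝ) < k := by exact_mod_cast hk
      have h2 := dfc_add B μ' l (1 / k) (by positivity)
      have h3 : 1 + 1 / (1 / (k : ℝ)) = 1 + k := by field_simp
      rw [h3] at h2
      refine h2.trans ?_
      push_cast
      calc (1 + 1 / (k : ℝ)) * dfc B μ' + (1 + k) * dfc B l
          ≤ (1 + 1 / (k : ℝ)) * ((k : ℝ) ^ 2 * (δ * (B.card : ℝ) ^ 2)) + (1 + k) * (δ * (B.card : ℝ) ^ 2) := by
            gcongr
        _ = _ := by
            field_simp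
            ring

open Classical in
theorem card_nsmul_near (B : Finset G) (hB : B.Nonempty) (δ : ℝ) (hδ : 0 ≤ δ) (k : ℕ)
    (hk : (k : ℝ) ^ 2 * δ ≤ 3 / 2) : ((k • near B δ).card : ℝ) * B.card ≤ 4 * Fintype.card G := by
  have hBpos : (0 : ℝ) < B.card := by exact_mod_cast hB.card_pos
  have h1 : ∀ μ ∈ k • near B δ, (B.card : ℝ) ^ 2 / 4 ≤ ‖∑ b ∈ B, μ b‖ ^ 2 := by
    intro μ hμ
    have h2 := dfc_nsmul B δ hδ k μ hμ
    rw [dfc_eq] at h2
    have h3 : (k : ℝ) ^ 2 * (δ * (B.card : ℝ) ^ 2) ≤ 3 / 2 * (B.card : ℝ) ^ 2 := by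
      rw [← mul_assoc]
      gcongr
    linarith
  have h2 : ((k • near B δ).card : ℝ) * ((B.card : ℝ) ^ 2 / 4) ≤ Fintype.card G * B.card := by
    rw [← parseval_set, ← nsmul_eq_mul, ← sum_const]
    exact (sum_le_sum h1).trans (sum_le_sum_of_subset_of_nonneg (subset_univ _) fun ψ _ _ => by positivity)
  have h3 : (B.card : ℝ) * (((k • near B δ).card : ℝ) * B.card) ≤ B.card * (4 * Fintype.card G) := by nlinarith
  exact le_of_mul_le_mul_left h3 hBpos

open Classical in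
theorem nsmul_subset (B : Finset G) (δ : ℝ) (hδ : 0 ≤ δ) (k : ℕ) : k • near B δ ⊆ (k + 1) • near B δ := by
  intro μ hμ
  rw [succ_nsmul]
  have := add_mem_add hμ (zero_mem_near B δ hδ)
  rwa [add_zero] at this

open Classical in
theorem nsmul_nonempty (B : Finset G) (δ : ℝ) (hδ : 0 ≤ δ) (k : ℕ) : (k • near B δ).Nonempty := by
  induction k with
  | zero => rw [zero_nsmul]; exact ⟨0, mem_zero.2 rfl⟩
  | succ k ih => exact ih.mono (nsmul_subset B δ hδ k)

open Classical in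
theorem exists_slow_near (B : Finset G) (hB : B.Nonempty) (δ : ℝ) (hδ : 0 ≤ δ) (η : ℝ) (hη : 0 ≤ η) (n₀ : ℕ)
    (h1 : 4 * (Fintype.card G : ℝ) < (1 + η) ^ n₀ * B.card) (h2 : (n₀ : ℝ) ^ 2 * δ ≤ 3 / 2) :
    ∃ k < n₀, (((k + 1) • near B δ).card : ℝ) ≤ (1 + η) * (k • near B δ).card := by
  by_contra hcon
  push Not at hcon
  have hBpos : (0 : ℝ) < B.card := by exact_mod_cast hB.card_pos
  have h3 : ∀ k ≤ n₀, (1 + η) ^ k ≤ ((k • near B δ).card : ℝ) := by
    intro k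
    induction k with
    | zero =>
      intro _
      rw [zero_nsmul, pow_zero]
      simp
    | succ k ih =>
      intro hk
      have h4 := ih (by omega)
      have h5 := hcon k (by omega)
      rw [pow_succ]
      calc (1 + η) ^ k * (1 + η) ≤ ((k • near B δ).card : ℝ) * (1 + η) := by gcongr
        _ = (1 + η) * ((k • near B δ).card : ℝ) := by ring
        _ ≤ _ := h5.le
  have h4 := h3 n₀ le_rfl
  have h5 := card_nsmul_near B hB δ hδ n₀ h2
  have h6 : (1 + η) ^ n₀ * B.card ≤ ((n₀ • near B δ).card : ℝ) * B.card := by gcongr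
  linarith

open Classical in
theorem near_one (X Y : Finset (AddChar G ℂ)) (hX : X.Nonempty) (η : ℝ) (hYX : (Y.card : ℝ) ≤ (1 + η) * X.card)
    (hXY : X ⊆ Y) (l : AddChar G ℂ) (hl : ∀ ψ ∈ X, ψ + l ∈ Y) (x : G)
    (hx : (X.card : ℝ) / 2 ≤ ‖∑ ψ ∈ X, ψ x‖) : ‖l x - 1‖ ≤ 4 * η := by
  have hXpos : (0 : ℝ) < X.card := by exact_mod_cast hX.card_pos
  obtain ⟨X', hX'⟩ : ∃ X' : Finset (AddChar G ℂ), X' = X.image (fun ψ => ψ + l) := ⟨_, rfl⟩
  have hX'Y : X' ⊆ Y := by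
    intro χ hχ
    rw [hX', mem_image] at hχ
    obtain ⟨ψ, hψ, rfl⟩ := hχ
    exact hl ψ hψ
  have hcard : X'.card = X.card := by
    rw [hX']
    exact card_image_of_injective X (add_left_injective l)
  have e1 : (∑ ψ ∈ X, ψ x) * (l x - 1) = ∑ ψ ∈ X', ψ x - ∑ ψ ∈ X, ψ x := by
    have : ∑ ψ ∈ X', ψ x = ∑ ψ ∈ X, (ψ + l) x := by
      rw [hX']
      exact sum_image (fun a _ b _ h => add_left_injective l h)
    rw [this, sum_mul, ← sum_sub_distrib]
    apply sum_congr rfl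
    intro ψ _
    rw [AddChar.add_apply]
    ring
  have e2 : ∑ ψ ∈ X', ψ x - ∑ ψ ∈ X, ψ x = ∑ ψ ∈ X' \ X, ψ x - ∑ ψ ∈ X \ X', ψ x := by
    have h1 := sum_inter_add_sum_sdiff X' X (fun ψ : AddChar G ℂ => ψ x)
    have h2 := sum_inter_add_sum_sdiff X X' (fun ψ : AddChar G ℂ => ψ x)
    rw [← h1, ← h2, inter_comm X X']
    ring
  have hn : ∀ s : Finset (AddChar G ℂ), ‖∑ ψ ∈ s, ψ x‖ ≤ (s.card : ℝ) := by
    intro s
    refine (norm_sum_le _ _).trans (le_of_eq ?_)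
    simp [AddChar.norm_apply]
  have h3 : ((X' \ X).card : ℝ) ≤ η * X.card := by
    have h4 : (X' \ X).card ≤ (Y \ X).card := card_le_card (sdiff_subset_sdiff hX'Y le_rfl)
    have h5 := card_sdiff_add_card_eq_card hXY
    have h6 : ((Y \ X).card : ℝ) + X.card = Y.card := by exact_mod_cast h5
    have h7 : ((X' \ X).card : ℝ) ≤ (Y \ X).card := by exact_mod_cast h4
    linarith
  have h4 : ((X \ X').card : ℝ) ≤ η * X.card := by
    have h4 : (X \ X').card ≤ (Y \ X').card := card_le_card (sdiff_subset_sdiff hXY le_rfl)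
    have h5 := card_sdiff_add_card_eq_card hX'Y
    have h6 : ((Y \ X').card : ℝ) + X'.card = Y.card := by exact_mod_cast h5
    have h7 : ((X \ X').card : ℝ) ≤ (Y \ X').card := by exact_mod_cast h4
    have h8 : (X'.card : ℝ) = X.card := by exact_mod_cast hcard
    linarith
  have h5 : ‖∑ ψ ∈ X, ψ x‖ * ‖l x - 1‖ ≤ 2 * η * X.card := by
    rw [← norm_mul, e1, e2]
    refine (norm_sub_le _ _).trans ?_
    have := hn (X' \ X)
    have := hn (X \ X')
    linarith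
  have h6 : (X.card : ℝ) / 2 * ‖l x - 1‖ ≤ 2 * η * X.card := by
    refine le_trans ?_ h5
    gcongr
  have h7 : (X.card : ℝ) * ‖l x - 1‖ ≤ X.card * (4 * η) := by linarith
  exact le_of_mul_le_mul_left h7 hXpos

open Classical in
theorem prim_tuple (X : Finset (AddChar G ℂ)) (j : ℕ) (x : G) :
    ∑ v ∈ Fintype.piFinset (fun _ : Fin j => X), (∑ i, v i) x = (∑ ψ ∈ X, ψ x) ^ j := by
  have h1 : ∀ v : Fin j → AddChar G ℂ, (∑ i, v i) x = ∏ i, v i x := by
    intro v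
    rw [AddChar.sum_apply]
  simp_rw [h1]
  rw [← Finset.prod_univ_sum (fun _ : Fin j => X) (fun _ a => a x), prod_const, card_univ, Fintype.card_fin]

open Classical in
theorem many_big (X : Finset (AddChar G ℂ)) (hX : X.Nonempty) (j : ℕ) (β : ℝ) (hβ : 0 < β)
    (h1 : (((j + 1) • X).card : ℝ) * β ≤ 4 * Fintype.card G) (h2 : 8 * (Fintype.card G : ℝ) ≤ 4 ^ j * β) :
    β / 8 ≤ ((univ.filter fun x : G => (X.card : ℝ) / 2 ≤ ‖∑ ψ ∈ X, ψ x‖).card : ℝ) := by
  have hXpos : (0 : ℝ) < X.card := by exact_mod_cast hX.card_pos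
  have hX1 : (1 : ℝ) ≤ X.card := by exact_mod_cast hX.card_pos
  have hGpos : (0 : ℝ) < Fintype.card G := by exact_mod_cast Fintype.card_pos
  obtain ⟨P, hP⟩ : ∃ P : Finset (Fin (j + 1) → AddChar G ℂ), P = Fintype.piFinset (fun _ : Fin (j + 1) => X) :=
    ⟨_, rfl⟩
  have hPcard : (P.card : ℝ) = (X.card : ℝ) ^ (j + 1) := by
    rw [hP, Fintype.card_piFinset, prod_const, card_univ, Fintype.card_fin]
    push_cast
    rfl
  have h3 := four_prim_ge (G := G) P (fun v => ∑ i, v i) ((j + 1) • X) (by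
    intro v hv
    rw [hP, Fintype.mem_piFinset] at hv
    exact sum_mem_nsmul X (j + 1) v hv)
  have h4 : ∀ x : G, ‖∑ v ∈ P, (∑ i, v i) x‖ ^ 2 = (‖∑ ψ ∈ X, ψ x‖ ^ 2) ^ (j + 1) := by
    intro x
    rw [hP, prim_tuple, norm_pow, ← pow_mul, ← pow_mul, mul_comm 2]
  simp_rw [h4] at h3
  rw [hPcard] at h3
  obtain ⟨big, hbig⟩ : ∃ big : Finset G, big = univ.filter fun x : G => (X.card : ℝ) / 2 ≤ ‖∑ ψ ∈ X, ψ x‖ := ⟨_, rfl⟩
  rw [← hbig]
  have hn : ∀ x : G, ‖∑ ψ ∈ X, ψ x‖ ≤ (X.card : ℝ) := by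
    intro x
    refine (norm_sum_le _ _).trans (le_of_eq ?_)
    simp [AddChar.norm_apply]
  have hpars : ∑ x : G, ‖∑ ψ ∈ X, ψ x‖ ^ 2 = Fintype.card G * X.card := by
    have h5 := parseval (G := G) X (fun _ => 1)
    simp only [one_mul, norm_one, one_pow, sum_const, nsmul_eq_mul, mul_one] at h5
    exact h5
  have h5 : ∑ x : G, (‖∑ ψ ∈ X, ψ x‖ ^ 2) ^ (j + 1) ≤
      big.card * ((X.card : ℝ) ^ 2) ^ (j + 1) + ((X.card : ℝ) ^ 2 / 4) ^ j * (Fintype.card G * X.card) := by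
    rw [← sum_filter_add_sum_filter_not univ (fun x : G => (X.card : ℝ) / 2 ≤ ‖∑ ψ ∈ X, ψ x‖), ← hbig]
    apply add_le_add
    · rw [← nsmul_eq_mul, ← sum_const]
      apply sum_le_sum
      intro x _
      have := hn x
      gcongr
    · rw [← hpars, mul_sum]
      refine le_trans (sum_le_sum (g := fun x : G => ((X.card : ℝ) ^ 2 / 4) ^ j * ‖∑ ψ ∈ X, ψ x‖ ^ 2) ?_)
        (sum_le_sum_of_subset_of_nonneg (filter_subset _ _) fun x _ _ => by positivity)
      intro x hx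
      rw [mem_filter, not_le] at hx
      rw [pow_succ]
      have h6 : ‖∑ ψ ∈ X, ψ x‖ ^ 2 ≤ (X.card : ℝ) ^ 2 / 4 := by
        calc ‖∑ ψ ∈ X, ψ x‖ ^ 2 ≤ ((X.card : ℝ) / 2) ^ 2 := by
              have := hx.2.le
              gcongr
          _ = _ := by ring
      gcongr
  -- put together
  obtain ⟨Z, hZ⟩ : ∃ Z : ℝ, Z = (((j + 1) • X).card : ℝ) := ⟨_, rfl⟩
  rw [← hZ] at h1 h3
  have hZ0 : 0 ≤ Z := by rw [hZ]; positivity
  obtain ⟨W, hW⟩ : ∃ W : ℝ, W = (X.card : ℝ) ^ (2 * (j + 1)) := ⟨_, rfl⟩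
  have hWpos : 0 < W := by rw [hW]; positivity
  have e1 : ((X.card : ℝ) ^ (j + 1)) ^ 2 = W := by rw [hW, ← pow_mul, mul_comm 2]
  have e2 : ((X.card : ℝ) ^ 2) ^ (j + 1) = W := by rw [hW, ← pow_mul]
  have e3 : ((X.card : ℝ) ^ 2 / 4) ^ j * (Fintype.card G * X.card) ≤ W * (Fintype.card G / 4 ^ j) := by
    have : ((X.card : ℝ) ^ 2 / 4) ^ j * (Fintype.card G * X.card) =
        ((X.card : ℝ) ^ (2 * j) * X.card) * (Fintype.card G / 4 ^ j) := by
      rw [div_pow, ← pow_mul]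
      ring
    rw [this]
    apply mul_le_mul_of_nonneg_right _ (by positivity)
    rw [hW]
    calc (X.card : ℝ) ^ (2 * j) * X.card = (X.card : ℝ) ^ (2 * j + 1) := by rw [pow_succ]
      _ ≤ (X.card : ℝ) ^ (2 * (j + 1)) := pow_le_pow_right₀ hX1 (by omega)
  rw [e1] at h3
  rw [e2] at h5
  have h6 : (Fintype.card G : ℝ) * W ≤ Z * (big.card * W + W * (Fintype.card G / 4 ^ j)) := by
    refine h3.trans ?_
    have := h5.trans (add_le_add le_rfl e3)
    gcongr
  have h7 : (Fintype.card G : ℝ) / 4 ^ j ≤ β / 8 := by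
    rw [div_le_div_iff₀ (by positivity) (by norm_num)]
    linarith
  have h8 : (Fintype.card G : ℝ) * W ≤ (Z * (big.card + β / 8)) * W := by
    calc (Fintype.card G : ℝ) * W ≤ Z * (big.card * W + W * (Fintype.card G / 4 ^ j)) := h6
      _ ≤ Z * (big.card * W + W * (β / 8)) := by gcongr
      _ = _ := by ring
  have h9 : (Fintype.card G : ℝ) ≤ Z * (big.card + β / 8) := le_of_mul_le_mul_right h8 hWpos
  have h10 : (Fintype.card G : ℝ) * β ≤ (4 * Fintype.card G) * (big.card + β / 8) := by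
    calc (Fintype.card G : ℝ) * β ≤ (Z * (big.card + β / 8)) * β := by gcongr
      _ = (Z * β) * (big.card + β / 8) := by ring
      _ ≤ _ := by gcongr
  have h11 : (Fintype.card G : ℝ) * β ≤ Fintype.card G * (4 * (big.card + β / 8)) := by linarith
  have h12 := le_of_mul_le_mul_left h11 hGpos
  linarith

open Classical in
/-- **The Bohr set of the nearly constant characters is large.** -/
theorem near_large (B : Finset G) (hB : B.Nonempty) (δ : ℝ) (hδ : 0 ≤ δ) (η : ℝ) (hη : 0 ≤ η) (n₀ j : ℕ)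
    (h1 : 4 * (Fintype.card G : ℝ) < (1 + η) ^ n₀ * B.card) (h2 : 8 * (Fintype.card G : ℝ) ≤ 4 ^ j * B.card)
    (h3 : (((j + 1) * n₀ : ℕ) : ℝ) ^ 2 * δ ≤ 3 / 2) :
    (B.card : ℝ) / 8 ≤ ((univ.filter fun x : G => ∀ ψ ∈ near B δ, ‖ψ x - 1‖ ≤ 4 * η).card : ℝ) := by
  have hBpos : (0 : ℝ) < B.card := by exact_mod_cast hB.card_pos
  obtain ⟨k, hk, hslow⟩ := exists_slow_near B hB δ hδ η hη n₀ h1 (by
    refine le_trans ?_ h3
    have : (n₀ : ℝ) ≤ (((j + 1) * n₀ : ℕ) : ℝ) := by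
      exact_mod_cast Nat.le_mul_of_pos_left n₀ (by omega)
    gcongr)
  have hkle : (j + 1) * k ≤ (j + 1) * n₀ := Nat.mul_le_mul_left _ hk.le
  have h4 := many_big (k • near B δ) (nsmul_nonempty B δ hδ k) j B.card hBpos (by
    rw [← mul_nsmul']
    apply card_nsmul_near B hB δ hδ
    refine le_trans ?_ h3
    have : (((j + 1) * k : ℕ) : ℝ) ≤ (((j + 1) * n₀ : ℕ) : ℝ) := by exact_mod_cast hkle
    gcongr) h2
  refine h4.trans ?_
  have h5 : (univ.filter fun x : G => ((k • near B δ).card : ℝ) / 2 ≤ ‖∑ ψ ∈ k • near B δ, ψ x‖) ⊆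
      univ.filter fun x : G => ∀ ψ ∈ near B δ, ‖ψ x - 1‖ ≤ 4 * η := by
    intro x hx
    rw [mem_filter] at hx ⊢
    refine ⟨mem_univ _, ?_⟩
    intro l hl
    refine near_one (k • near B δ) ((k + 1) • near B δ) (nsmul_nonempty B δ hδ k) η hslow
      (nsmul_subset B δ hδ k) l ?_ x hx.2
    intro ψ hψ
    rw [succ_nsmul]
    exact add_mem_add hψ hl
  exact_mod_cast card_le_card h5

end Pool.Agent.H89.BH
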