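import Pool.Agent.H89.BH.ZNf

/-!
# Polynomially many copies of a set
-/

set_option autoImplicit false
set_option linter.unusedSectionVars false

namespace Pool.Agent.H89.BH

open Finset Pool.Agent.K4H60.BZ Pool.Agent.Q166.RF
open scoped Pointwise BigOperators ComplexConjugate

theorem many_copies (C : ℝ) (hC : 0 < C) : ∃ C₁ c₁ : ℝ, 0 < C₁ ∧ 0 < c₁ ∧
    ∀ (N : ℕ) [NeZero N] (A B : Finset (ZMod N)), A.Nonempty → B.Nonempty → ∀ (m : ℕ) (K L : ℝ),
      Real.log 2 ≤ L → 1 ≤ K → ((A + m • B).card : ℝ) ≤ K * A.card → K ^ 2 ≤ C * L → C₁ * (2 + L) ^ 9 ≤ m →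
      Real.log ((N : ℝ) / B.card) ≤ C * L * Real.log (2 + L) →
      ∃ Γ : Finset (ZMod N), (Γ.card : ℝ) ≤ C₁ * L ∧
        ∀ x : ZMod N, (∀ γ ∈ Γ, nint (((γ * x).val : ℝ) / N) ≤ c₁ / L) →
          ∃ a₁ ∈ A, ∃ a₂ ∈ A, ∃ a₃ ∈ A, ∃ a₄ ∈ A, x = a₁ + a₂ - a₃ - a₄ := by
  classical
  obtain ⟨K₂, c₂, hK₂, hc₂, hfor⟩ := forward (C + 9) (by linarith)
  obtain ⟨V, hV⟩ : ∃ V : ℝ, V = 2 * Real.log (8 * (C + 1)) + 1 := ⟨_, rfl⟩
  have hV1 : 1 ≤ V := by
    have : 0 ≤ Real.log (8 * (C + 1)) := Real.log_nonneg (by linarith)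
    linarith
  obtain ⟨C₁, hC₁⟩ : ∃ C₁ : ℝ, C₁ = K₂ + 8 * C + 4 * 10 ^ 6 * (C + 3) ^ 4 * V := ⟨_, rfl⟩
  refine ⟨C₁, min c₂ (1 / 20), by rw [hC₁]; positivity, lt_min hc₂ (by norm_num), ?_⟩
  intro N _ A B hA hB m K L hL hK hAB hKL hm hBL
  have hBpos : (0 : ℝ) < B.card := by exact_mod_cast hB.card_pos
  have hNpos : (0 : ℝ) < N := by exact_mod_cast Nat.pos_of_ne_zero (NeZero.ne N)
  have hlog2 := Real.log_two_gt_d9
  have hL0 : 0.69 ≤ L := by linarith
  obtain ⟨u, hu⟩ : ∃ u : ℝ, u = 2 + L := ⟨_, rfl⟩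
  obtain ⟨l, hl⟩ : ∃ l : ℝ, l = Real.log u := ⟨_, rfl⟩
  rw [← hu] at hm
  rw [← hu, ← hl] at hBL
  have hu1 : 2.69 ≤ u := by linarith
  have hl1 : 1 / 2 ≤ l := by
    rw [hl, Real.le_log_iff_exp_le (by linarith)]
    have h1 : Real.exp (1 / 2) ^ 2 = Real.exp 1 := by
      rw [← Real.exp_nat_mul]; norm_num
    have h2 := Real.exp_one_lt_d9
    have h3 := Real.exp_pos (1 / 2)
    nlinarith
  have hl5 : l ^ 5 ≤ 3125 * u := by
    have h1 := Real.log_le_rpow_div (show 0 ≤ u by linarith) (show (0 : ℝ) < 1 / 5 by norm_num)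
    rw [← hl] at h1
    calc l ^ 5 ≤ (u ^ (1 / 5 : ℝ) / (1 / 5)) ^ 5 := by gcongr
      _ = 3125 * (u ^ (1 / 5 : ℝ)) ^ 5 := by ring
      _ = 3125 * u := by
        rw [← Real.rpow_natCast, ← Real.rpow_mul (by linarith)]
        norm_num
  obtain ⟨P, hP⟩ : ∃ P : ℝ, P = C * L * l + 3 := ⟨_, rfl⟩
  have hCLl : 0 ≤ C * L * l := by positivity
  have hP3 : 3 ≤ P := by linarith
  have hPu : P ≤ (C + 3) * (u * l) := by
    have h1 : L ≤ u := by linarith
    have h2 : C * L * l ≤ C * (u * l) := by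
      calc C * L * l = C * (L * l) := by ring
        _ ≤ C * (u * l) := by gcongr
    have h3 : 1 ≤ u * l := by nlinarith
    nlinarith
  have hlog4 : Real.log 4 ≤ 2 := by
    have : (4 : ℝ) = 2 ^ (2 : ℕ) := by norm_num
    rw [this, Real.log_pow]
    push_cast
    linarith [Real.log_two_lt_d9]
  have hlog8 : Real.log 8 ≤ 3 := by
    have : (8 : ℝ) = 2 ^ (3 : ℕ) := by norm_num
    rw [this, Real.log_pow]
    push_cast
    linarith [Real.log_two_lt_d9]
  have hP8 : Real.log (8 * N / B.card) ≤ P := by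
    rw [mul_div_assoc, Real.log_mul (by norm_num) (by positivity)]
    linarith
  -- the parameters
  obtain ⟨η, hη⟩ : ∃ η : ℝ, η = 1 / (2 * u ^ 2) := ⟨_, rfl⟩
  have hη0 : 0 < η := by rw [hη]; positivity
  have hη1 : η ≤ 1 / 14 := by
    rw [hη]
    apply one_div_le_one_div_of_le (by norm_num)
    nlinarith
  obtain ⟨n₀, hn₀⟩ : ∃ n₀ : ℕ, n₀ = ⌈4 * u ^ 2 * P⌉₊ + 1 := ⟨_, rfl⟩
  have hn1 : 4 * u ^ 2 * P < n₀ := by
    rw [hn₀]
    push_cast
    have := Nat.le_ceil (4 * u ^ 2 * P)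
    linarith
  have hn2 : (n₀ : ℝ) ≤ 5 * u ^ 2 * P := by
    rw [hn₀]
    push_cast
    have h1 := Nat.ceil_lt_add_one (show 0 ≤ 4 * u ^ 2 * P by positivity)
    have h2 : 2 ≤ u ^ 2 * P := by nlinarith
    linarith
  obtain ⟨j, hj⟩ : ∃ j : ℕ, j = ⌈P⌉₊ := ⟨_, rfl⟩
  have hj1 : P ≤ j := by rw [hj]; exact Nat.le_ceil _
  have hj2 : (j : ℝ) + 1 ≤ 2 * P := by
    rw [hj]
    have h1 := Nat.ceil_lt_add_one (show 0 ≤ P by linarith)
    linarith
  have hmlow : 4 * 10 ^ 6 * (C + 3) ^ 4 * V * u ^ 9 ≤ m := by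
    refine le_trans ?_ hm
    rw [hC₁]
    have : 0 ≤ (K₂ + 8 * C) * u ^ 9 := by positivity
    nlinarith
  have hmpos : (0 : ℝ) < m := lt_of_lt_of_le (by positivity) hmlow
  obtain ⟨g, hg⟩ : ∃ g : ℝ, g = Real.log (8 * K ^ 2) := ⟨_, rfl⟩
  have hg0 : 0 < g := by
    rw [hg]
    apply Real.log_pos
    nlinarith
  have hgV : g ≤ V * l := by
    have h1 : 8 * K ^ 2 ≤ (8 * (C + 1)) * u := by
      have h2 : C * L ≤ (C + 1) * u := by
        have : 0 ≤ u := by linarith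
        nlinarith
      linarith
    have h2 := Real.log_le_log (by positivity) h1
    have h4 : Real.log (8 * (C + 1) * u) = Real.log (8 * (C + 1)) + l := by
      rw [Real.log_mul (by positivity) (by positivity), ← hl]
    rw [← hg, h4] at h2
    obtain ⟨W, hW⟩ : ∃ W : ℝ, W = Real.log (8 * (C + 1)) := ⟨_, rfl⟩
    have h3 : 0 ≤ W := by rw [hW]; exact Real.log_nonneg (by linarith)
    rw [← hW] at h2 hV
    rw [hV]
    have h5 : W ≤ 2 * W * l := by nlinarith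
    linarith
  obtain ⟨ε, hε⟩ : ∃ ε : ℝ, ε = g / m := ⟨_, rfl⟩
  have hε0 : 0 < ε := by rw [hε]; positivity
  have hδ : 16 * ε = 16 * g / m := by rw [hε]; ring
  have hkey : (((j + 1) * n₀ : ℕ) : ℝ) ^ 2 * (16 * ε) ≤ 3 / 2 := by
    have h1 : (((j + 1) * n₀ : ℕ) : ℝ) ≤ 10 * (C + 3) ^ 2 * (u ^ 4 * l ^ 2) := by
      push_cast
      calc ((j : ℝ) + 1) * n₀ ≤ (2 * P) * (5 * u ^ 2 * P) := by gcongr
        _ = 10 * u ^ 2 * P ^ 2 := by ring
        _ ≤ 10 * u ^ 2 * ((C + 3) * (u * l)) ^ 2 := by gcongr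
        _ = _ := by ring
    rw [hδ, mul_div_assoc', div_le_iff₀ hmpos]
    calc (((j + 1) * n₀ : ℕ) : ℝ) ^ 2 * (16 * g) ≤ (10 * (C + 3) ^ 2 * (u ^ 4 * l ^ 2)) ^ 2 * (16 * (V * l)) := by
          gcongr
      _ = 1600 * (C + 3) ^ 4 * V * u ^ 8 * l ^ 5 := by ring
      _ ≤ 1600 * (C + 3) ^ 4 * V * u ^ 8 * (3125 * u) := by gcongr
      _ = 5000000 * ((C + 3) ^ 4 * V * u ^ 9) := by ring
      _ ≤ 3 / 2 * (4 * 10 ^ 6 * (C + 3) ^ 4 * V * u ^ 9) := by
          have : 0 ≤ (C + 3) ^ 4 * V * u ^ 9 := by positivity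
          nlinarith
      _ ≤ 3 / 2 * m := by gcongr
  have hc1 : 4 * (Fintype.card (ZMod N) : ℝ) < (1 + η) ^ n₀ * B.card := by
    rw [ZMod.card]
    have h1 : P < n₀ * Real.log (1 + η) := by
      have h2 := Real.le_log_one_add_of_nonneg hη0.le
      have h3 : η / 2 ≤ 2 * η / (η + 2) := by
        rw [div_le_div_iff₀ (by norm_num) (by linarith)]
        nlinarith
      have h4 : P < n₀ * (η / 2) := by
        have : (n₀ : ℝ) * (η / 2) = n₀ / (4 * u ^ 2) := by rw [hη]; field_simp; norm_num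
        rw [this, lt_div_iff₀ (by positivity)]
        linarith
      calc P < n₀ * (η / 2) := h4
        _ ≤ n₀ * Real.log (1 + η) := by gcongr; exact h3.trans h2
    have h2 : Real.exp P < (1 + η) ^ n₀ := by
      have : (1 + η) ^ n₀ = Real.exp (n₀ * Real.log (1 + η)) := by
        rw [mul_comm, Real.exp_mul, Real.exp_log (by linarith), Real.rpow_natCast]
      rw [this]
      exact Real.exp_lt_exp.2 h1
    have h3 : 8 * (N : ℝ) / B.card ≤ Real.exp P := by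
      rw [← Real.log_le_iff_le_exp (by positivity)]
      exact hP8
    rw [div_le_iff₀ hBpos] at h3
    have h4 : Real.exp P * B.card < (1 + η) ^ n₀ * B.card := by gcongr
    linarith
  have hc2 : 8 * (Fintype.card (ZMod N) : ℝ) ≤ 4 ^ j * B.card := by
    rw [ZMod.card]
    have h3 : 8 * (N : ℝ) / B.card ≤ Real.exp P := by
      rw [← Real.log_le_iff_le_exp (by positivity)]
      exact hP8
    rw [div_le_iff₀ hBpos] at h3
    refine h3.trans ?_
    have h4 : Real.exp P ≤ 4 ^ j := by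
      calc Real.exp P ≤ Real.exp j := Real.exp_le_exp.2 hj1
        _ = Real.exp 1 ^ j := by rw [← Real.exp_nat_mul, mul_one]
        _ ≤ 4 ^ j := by
          have := Real.exp_one_lt_d9
          gcongr
          linarith
    gcongr
  have hbig := near_large B hB (16 * ε) (by positivity) η hη0.le n₀ j hc1 hc2 hkey
  obtain ⟨Γ₀, _, hfr1, hfr2⟩ := freq_fin (near B (16 * ε))
  have hBS : (B.card : ℝ) / 8 ≤ (BS Γ₀ η).card := by
    refine hbig.trans ?_
    have : (univ.filter fun x : ZMod N => ∀ ψ ∈ near B (16 * ε), ‖ψ x - 1‖ ≤ 4 * η) ⊆ BS Γ₀ η := by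
      intro x hx
      rw [mem_filter] at hx
      rw [mem_BS]
      exact hfr2 x η hx.2
    exact_mod_cast card_le_card this
  have hBSpos : (0 : ℝ) < (BS Γ₀ η).card := lt_of_lt_of_le (by positivity) hBS
  obtain ⟨Γ', hΓ', hsub⟩ := hfor N Γ₀ η L hη0 hL (by
      rw [← hu]
      have h1 : u ^ (-2 : ℝ) = 1 / u ^ 2 := by
        rw [Real.rpow_neg (by linarith), one_div]
        congr 1
        exact_mod_cast Real.rpow_natCast u 2
      rw [h1, hη]
      apply one_div_le_one_div_of_le (by positivity)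
      nlinarith) (by
      rw [← hu, ← hl]
      have h1 : Real.log (N / (BS Γ₀ η).card) ≤ Real.log (8 * N / B.card) := by
        apply Real.log_le_log (by positivity)
        rw [div_le_div_iff₀ hBSpos hBpos]
        nlinarith
      have h2 : 1 / 3 ≤ L * l := by nlinarith
      have h3 := h1.trans hP8
      rw [hP] at h3
      nlinarith)
  obtain ⟨Ψ, hΨ, hmain⟩ := growth_core A B hA hB m K hK hAB ε hε0.le (by
    rw [← hg, hε]
    have : 2 * (m : ℝ) * (g / m) = 2 * g := by field_simp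
    rw [this]
    linarith)
  obtain ⟨Γ₂, hΓ₂, hfr3, _⟩ := freq_fin Ψ
  refine ⟨Γ' ∪ Γ₂, ?_, ?_⟩
  · have h1 : (Γ' ∪ Γ₂).card ≤ Γ'.card + Ψ.card := (card_union_le _ _).trans (Nat.add_le_add_left hΓ₂ _)
    have h2 : ((Γ' ∪ Γ₂).card : ℝ) ≤ Γ'.card + Ψ.card := by exact_mod_cast h1
    rw [hC₁]
    have h3 : 0 ≤ 4 * 10 ^ 6 * (C + 3) ^ 4 * V * L := by positivity
    nlinarith
  · intro x hx
    have hLpos : 0 < L := by linarith
    have hr1 : min c₂ (1 / 20) / L ≤ c₂ / L := by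
      gcongr
      exact min_le_left _ _
    have hr2 : min c₂ (1 / 20) / L ≤ 1 / 13 := by
      calc min c₂ (1 / 20) / L ≤ (1 / 20) / L := by
            gcongr
            exact min_le_right _ _
        _ ≤ 1 / 13 := by
            rw [div_div, div_le_div_iff₀ (by positivity) (by norm_num)]
            linarith
    have hpi := Real.pi_lt_d2
    apply hmain x
    · intro ψ hψ
      refine (hfr3 x (1 / 13) (fun γ hγ => (hx γ (mem_union_right _ hγ)).trans hr2) ψ hψ).trans ?_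
      linarith
    · intro ψ hψ
      have h1 : x ∈ BS Γ₀ η := by
        apply hsub
        rw [mem_BS]
        intro γ hγ
        exact (hx γ (mem_union_left _ hγ)).trans hr1
      rw [mem_BS] at h1
      refine (hfr1 x η (fun γ hγ => h1 γ hγ) ψ ((mem_near B (16 * ε) ψ).2 hψ)).trans ?_
      nlinarith

end Pool.Agent.H89.BH
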