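import Pool.Graph.R_pool_sql_team_seeded_c8625f6e.K4H60.BZ.Core

/-!
# Bohr sets in `2A - 2A` for sets with many popular differences
-/

set_option autoImplicit false
set_option linter.unusedSectionVars false

namespace Pool.Agent.H89.BH

open Finset Pool.Agent.K4H60.BZ
open scoped Pointwise BigOperators ComplexConjugate

/-- exponential moment of a sum sampled with weights -/
theorem exp_moment_w {X : Type*} [Fintype X] [DecidableEq X] (w : X → ℝ) (hw0 : ∀ a, 0 ≤ w a) (hw1 : ∑ a, w a = 1)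
    (n : ℕ) (Y : X → ℝ) (hY : ∀ a, |Y a| ≤ 1) (h0 : ∑ a, w a * Y a = 0) (t : ℝ) :
    ∑ v : Fin n → X, (∏ i, w (v i)) * Real.exp (t * ∑ i, Y (v i)) ≤ Real.exp (n * t ^ 2 / 2) := by
  have h1 : ∀ v : Fin n → X, (∏ i, w (v i)) * Real.exp (t * ∑ i, Y (v i)) =
      ∏ i, (w (v i) * Real.exp (t * Y (v i))) := by
    intro v
    rw [prod_mul_distrib, ← Real.exp_sum, mul_sum]
  simp_rw [h1]
  have h2 := (Finset.prod_univ_sum (fun _ : Fin n => (univ : Finset X))
    (fun _ a => w a * Real.exp (t * Y a))).symm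
  rw [Fintype.piFinset_univ] at h2
  rw [h2, prod_const, card_univ, Fintype.card_fin]
  have h3 : ∑ a, w a * Real.exp (t * Y a) ≤ Real.exp (t ^ 2 / 2) := by
    calc ∑ a, w a * Real.exp (t * Y a) ≤ ∑ a, w a * (Real.cosh t + Y a * Real.sinh t) := by
          apply sum_le_sum
          intro a _
          apply mul_le_mul_of_nonneg_left _ (hw0 a)
          rw [mul_comm]
          exact Real.exp_mul_le_cosh_add_mul_sinh (hY a) t
      _ = Real.cosh t := by
          have : ∀ a, w a * (Real.cosh t + Y a * Real.sinh t) = w a * Real.cosh t + (w a * Y a) * Real.sinh t := by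
            intro a; ring
          simp_rw [this]
          rw [sum_add_distrib, ← sum_mul, ← sum_mul, h0, hw1]
          ring
      _ ≤ _ := Real.cosh_le_exp_half_sq t
  have h4 : 0 ≤ ∑ a, w a * Real.exp (t * Y a) := sum_nonneg fun a _ => mul_nonneg (hw0 a) (Real.exp_pos _).le
  calc (∑ a, w a * Real.exp (t * Y a)) ^ n ≤ (Real.exp (t ^ 2 / 2)) ^ n := by gcongr
    _ = _ := by
      rw [← Real.exp_nat_mul]
      congr 1
      ring

theorem weight_one {X : Type*} [Fintype X] [DecidableEq X] (w : X → ℝ) (hw1 : ∑ a, w a = 1) (n : ℕ) :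
    ∑ v : Fin n → X, (∏ i, w (v i)) = 1 := by
  have h2 := (Finset.prod_univ_sum (fun _ : Fin n => (univ : Finset X)) (fun _ a => w a)).symm
  rw [Fintype.piFinset_univ] at h2
  rw [h2, prod_const, hw1, one_pow]

/-- The weighted sampling lemma: there is a sample with few bad points. -/
theorem sample_w {X ι : Type*} [Fintype X] [DecidableEq X] [Fintype ι] (w : X → ℝ) (hw0 : ∀ a, 0 ≤ w a)
    (hw1 : ∑ a, w a = 1) (n : ℕ) (hn : 0 < n) (Y : ι → X → ℝ) (hY : ∀ y a, |Y y a| ≤ 1)
    (h0 : ∀ y, ∑ a, w a * Y y a = 0) (lam : ℝ) (hlam : 0 ≤ lam) :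
    ∃ v : Fin n → X, ((univ.filter fun y => lam ≤ |∑ i, Y y (v i)|).card : ℝ) * Real.exp (lam ^ 2 / (2 * n)) ≤
      2 * Fintype.card ι := by
  classical
  have hn' : (0 : ℝ) < n := by exact_mod_cast hn
  obtain ⟨t, ht⟩ : ∃ t : ℝ, t = lam / n := ⟨_, rfl⟩
  have ht0 : 0 ≤ t := by rw [ht]; positivity
  by_contra hcon
  push Not at hcon
  have key : ∀ v : Fin n → X, ((univ.filter fun y => lam ≤ |∑ i, Y y (v i)|).card : ℝ) * Real.exp (t * lam) ≤
      ∑ y, (Real.exp (t * ∑ i, Y y (v i)) + Real.exp ((-t) * ∑ i, Y y (v i))) := by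
    intro v
    rw [← nsmul_eq_mul, ← sum_const]
    refine (sum_le_sum (g := fun y => Real.exp (t * ∑ i, Y y (v i)) + Real.exp ((-t) * ∑ i, Y y (v i))) ?_).trans
      (sum_le_sum_of_subset_of_nonneg (filter_subset _ _) fun y _ _ => by positivity)
    intro y hy
    rw [mem_filter] at hy
    rcases le_abs.1 hy.2 with h | h
    · have : Real.exp (t * lam) ≤ Real.exp (t * ∑ i, Y y (v i)) := by gcongr
      have h2 := Real.exp_pos ((-t) * ∑ i, Y y (v i))
      linarith
    · have : Real.exp (t * lam) ≤ Real.exp ((-t) * ∑ i, Y y (v i)) := by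
        apply Real.exp_le_exp.2
        nlinarith
      have h2 := Real.exp_pos (t * ∑ i, Y y (v i))
      linarith
  have hsum : ∑ v : Fin n → X, (∏ i, w (v i)) *
      ∑ y, (Real.exp (t * ∑ i, Y y (v i)) + Real.exp ((-t) * ∑ i, Y y (v i))) ≤
      2 * Fintype.card ι * Real.exp (n * t ^ 2 / 2) := by
    have e1 : ∀ v : Fin n → X, (∏ i, w (v i)) *
      ∑ y, (Real.exp (t * ∑ i, Y y (v i)) + Real.exp ((-t) * ∑ i, Y y (v i))) =
      ∑ y, ((∏ i, w (v i)) * Real.exp (t * ∑ i, Y y (v i)) +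
        (∏ i, w (v i)) * Real.exp ((-t) * ∑ i, Y y (v i))) := by
      intro v
      rw [mul_sum]
      apply sum_congr rfl
      intro y _
      ring
    simp_rw [e1]
    rw [sum_comm]
    calc _ ≤ ∑ y : ι, (2 * Real.exp (n * t ^ 2 / 2)) := by
          apply sum_le_sum
          intro y _
          rw [sum_add_distrib]
          have f1 := exp_moment_w w hw0 hw1 n (Y y) (hY y) (h0 y) t
          have f2 := exp_moment_w w hw0 hw1 n (Y y) (hY y) (h0 y) (-t)
          rw [neg_sq] at f2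
          linarith
      _ = _ := by
          rw [sum_const, card_univ, nsmul_eq_mul]
          ring
  have hexp : Real.exp (t * lam) = Real.exp (lam ^ 2 / (2 * n)) * Real.exp (n * t ^ 2 / 2) := by
    rw [← Real.exp_add]
    congr 1
    rw [ht]
    field_simp
    ring
  -- strict inequality for a sample with positive weight
  have hw2 := weight_one w hw1 n
  have hpos : ∃ v : Fin n → X, 0 < ∏ i, w (v i) := by
    by_contra h
    push Not at h
    have : ∑ v : Fin n → X, (∏ i, w (v i)) ≤ 0 := sum_nonpos fun v _ => h v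
    linarith
  obtain ⟨v0, hv0⟩ := hpos
  have hlt : ∑ v : Fin n → X, (∏ i, w (v i)) * (2 * Fintype.card ι * Real.exp (n * t ^ 2 / 2)) <
      ∑ v : Fin n → X, (∏ i, w (v i)) *
      ∑ y, (Real.exp (t * ∑ i, Y y (v i)) + Real.exp ((-t) * ∑ i, Y y (v i))) := by
    have hstep : ∀ v : Fin n → X, 2 * Fintype.card ι * Real.exp (n * t ^ 2 / 2) <
        ∑ y, (Real.exp (t * ∑ i, Y y (v i)) + Real.exp ((-t) * ∑ i, Y y (v i))) := by
      intro v
      refine lt_of_lt_of_le ?_ (key v)
      rw [hexp, ← mul_assoc]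
      exact mul_lt_mul_of_pos_right (hcon v) (Real.exp_pos _)
    apply sum_lt_sum
    · intro v _
      exact mul_le_mul_of_nonneg_left (hstep v).le (prod_nonneg fun i _ => hw0 _)
    · exact ⟨v0, mem_univ _, mul_lt_mul_of_pos_left (hstep v0) hv0⟩
  rw [← sum_mul, hw2, one_mul] at hlt
  linarith

variable {G : Type*} [AddCommGroup G] [Fintype G] [DecidableEq G]

/-- the Fourier expansion of the number of representations of a difference -/
theorem rep_expand (A : Finset G) (y : G) :
    ∑ ψ : AddChar G ℂ, ((‖∑ a ∈ A, ψ a‖ ^ 2 : ℝ) : ℂ) * ψ y =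
      (Fintype.card G : ℂ) * ((A.filter fun a => a + y ∈ A).card : ℂ) := by
  classical
  have e1 : ∀ ψ : AddChar G ℂ, ((‖∑ a ∈ A, ψ a‖ ^ 2 : ℝ) : ℂ) * ψ y = ∑ a ∈ A, ∑ b ∈ A, ψ ((a + y) - b) := by
    intro ψ
    have : ((‖∑ a ∈ A, ψ a‖ ^ 2 : ℝ) : ℂ) = (∑ a ∈ A, ψ a) * conj (∑ a ∈ A, ψ a) := by
      rw [Complex.mul_conj, Complex.normSq_eq_norm_sq]
    rw [this, map_sum, sum_mul_sum, sum_mul]
    apply sum_congr rfl
    intro a _
    rw [sum_mul]
    apply sum_congr rfl
    intro b _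
    rw [sub_eq_add_neg, AddChar.map_add_eq_mul, AddChar.map_add_eq_mul, AddChar.map_neg_eq_conj]
    ring
  simp_rw [e1]
  rw [sum_comm]
  have e2 : ∀ a ∈ A, ∑ ψ : AddChar G ℂ, ∑ b ∈ A, ψ ((a + y) - b) =
      if a + y ∈ A then (Fintype.card G : ℂ) else 0 := by
    intro a _
    rw [sum_comm]
    have e3 : ∀ b ∈ A, ∑ ψ : AddChar G ℂ, ψ ((a + y) - b) = if b = a + y then (Fintype.card G : ℂ) else 0 := by
      intro b _
      rw [AddChar.sum_apply_eq_ite]
      split_ifs with h1 h2 h2
      · rfl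
      · exact absurd (sub_eq_zero.1 h1).symm h2
      · exact absurd (sub_eq_zero.2 h2.symm) h1
      · rfl
    rw [sum_congr rfl e3, sum_ite_eq']
  rw [sum_congr rfl e2, ← sum_filter, sum_const, nsmul_eq_mul, mul_comm]

/-- **Popular differences.** If `|A ∩ (A - x)| ≥ |A|/M` for all `x` in a set `D` then `2A - 2A` contains a Bohr set of
constant radius. -/
theorem pop (A D : Finset G) (hA : A.Nonempty) (hD : D.Nonempty) (M : ℝ) (hM : 0 < M)
    (h : ∀ x ∈ D, (A.card : ℝ) ≤ M * ((A.filter fun a => a + x ∈ A).card : ℝ)) :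
    ∃ Λ : Finset (AddChar G ℂ), (Λ.card : ℝ) ≤ 128 * M ^ 2 * Real.log (8 * Fintype.card G / D.card) + 1 ∧
      ∀ x : G, (∀ ψ ∈ Λ, ‖ψ x - 1‖ < 1 / (2 * M)) →
        ∃ a₁ ∈ A, ∃ a₂ ∈ A, ∃ a₃ ∈ A, ∃ a₄ ∈ A, x = a₁ + a₂ - a₃ - a₄ := by
  classical
  have hApos : (0 : ℝ) < A.card := by exact_mod_cast hA.card_pos
  have hDpos : (0 : ℝ) < D.card := by exact_mod_cast hD.card_pos
  have hGpos : (0 : ℝ) < Fintype.card G := by exact_mod_cast Fintype.card_pos
  have hDG : (D.card : ℝ) ≤ Fintype.card G := by exact_mod_cast card_le_univ D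
  obtain ⟨w, hw⟩ : ∃ w : AddChar G ℂ → ℝ, w = fun ψ => ‖∑ a ∈ A, ψ a‖ ^ 2 / (Fintype.card G * A.card) := ⟨_, rfl⟩
  have hw0 : ∀ ψ, 0 ≤ w ψ := by intro ψ; rw [hw]; positivity
  have hw1 : ∑ ψ, w ψ = 1 := by
    rw [hw, ← sum_div, parseval_set]
    exact div_self (by positivity)
  obtain ⟨g, hg⟩ : ∃ g : G → ℝ, g = fun y => ((A.filter fun a => a + y ∈ A).card : ℝ) / A.card := ⟨_, rfl⟩
  have hg0 : ∀ y, 0 ≤ g y := by intro y; rw [hg]; positivity
  have hg1 : ∀ y, g y ≤ 1 := by
    intro y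
    rw [hg]
    apply div_le_one_of_le₀ _ hApos.le
    exact_mod_cast card_le_card (filter_subset _ _)
  have hgexp : ∀ y, ∑ ψ, w ψ * (ψ y).re = g y := by
    intro y
    have h1 := rep_expand A y
    have h2 : (∑ ψ : AddChar G ℂ, ((‖∑ a ∈ A, ψ a‖ ^ 2 : ℝ) : ℂ) * ψ y).re =
        (Fintype.card G : ℝ) * ((A.filter fun a => a + y ∈ A).card : ℝ) := by
      rw [h1]
      have : (Fintype.card G : ℂ) * ((A.filter fun a => a + y ∈ A).card : ℂ) =
        (((Fintype.card G : ℝ) * ((A.filter fun a => a + y ∈ A).card : ℝ) : ℝ) : ℂ) := by push_cast; ring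
      rw [this, Complex.ofReal_re]
    rw [Complex.re_sum] at h2
    simp only [Complex.re_ofReal_mul] at h2
    rw [hw, hg]
    simp only
    have h3 : ∀ ψ : AddChar G ℂ, ‖∑ a ∈ A, ψ a‖ ^ 2 / (Fintype.card G * A.card) * (ψ y).re =
        (‖∑ a ∈ A, ψ a‖ ^ 2 * (ψ y).re) / (Fintype.card G * A.card) := by
      intro ψ; ring
    simp_rw [h3]
    rw [← sum_div, h2]
    field_simp
  -- the number of samples
  obtain ⟨Q, hQ⟩ : ∃ Q : ℝ, Q = Real.log (8 * Fintype.card G / D.card) := ⟨_, rfl⟩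
  have hQ1 : 0 < Q := by
    rw [hQ]
    apply Real.log_pos
    rw [lt_div_iff₀ hDpos]
    linarith
  obtain ⟨n, hn⟩ : ∃ n : ℕ, n = ⌈128 * M ^ 2 * Q⌉₊ := ⟨_, rfl⟩
  have hn1 : 128 * M ^ 2 * Q ≤ n := by rw [hn]; exact Nat.le_ceil _
  have hn2 : (n : ℝ) ≤ 128 * M ^ 2 * Q + 1 := by
    rw [hn]
    exact (Nat.ceil_lt_add_one (by positivity)).le
  have hnpos : (0 : ℝ) < n := lt_of_lt_of_le (by positivity) hn1
  have hn0 : 0 < n := by exact_mod_cast hnpos
  obtain ⟨v, hv⟩ := sample_w w hw0 hw1 n hn0 (fun (y : G) (ψ : AddChar G ℂ) => ((ψ y).re - g y) / 2)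
    (by
      intro y ψ
      have h1 : |(ψ y).re| ≤ 1 := by
        refine (Complex.abs_re_le_norm _).trans ?_
        rw [AddChar.norm_apply]
      have h2 := abs_le.1 h1
      have h3 := hg0 y
      have h4 := hg1 y
      rw [abs_le]
      constructor <;> linarith [h2.1, h2.2])
    (by
      intro y
      have h1 : ∀ ψ : AddChar G ℂ, w ψ * (((ψ y).re - g y) / 2) = (w ψ * (ψ y).re - w ψ * g y) / 2 := by
        intro ψ; ring
      simp_rw [h1]
      rw [← sum_div, sum_sub_distrib, hgexp, ← sum_mul, hw1]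
      ring)
    (n / (8 * M)) (by positivity)
  refine ⟨univ.image v, ?_, ?_⟩
  · have h1 : (univ.image v).card ≤ n := by
      refine card_image_le.trans ?_
      rw [card_univ, Fintype.card_fin]
    have h2 : ((univ.image v).card : ℝ) ≤ n := by exact_mod_cast h1
    rw [← hQ]
    exact h2.trans hn2
  intro x hx
  by_contra hcon
  obtain ⟨bad, hbad⟩ : ∃ bad : Finset G, bad = univ.filter fun y => (n / (8 * M) : ℝ) ≤
    |∑ i, ((v i y).re - g y) / 2| := ⟨_, rfl⟩
  rw [← hbad] at hv
  have hbadcard : (bad.card : ℝ) * 4 ≤ D.card := by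
    have e1 : Real.exp Q = 8 * Fintype.card G / D.card := by
      rw [hQ, Real.exp_log (by positivity)]
    have e2 : Q ≤ (n / (8 * M)) ^ 2 / (2 * n) := by
      have : (n / (8 * M) : ℝ) ^ 2 / (2 * n) = n / (128 * M ^ 2) := by
        field_simp
        ring
      rw [this, le_div_iff₀ (by positivity)]
      linarith
    have e3 : (bad.card : ℝ) * (8 * Fintype.card G / D.card) ≤ 2 * Fintype.card G := by
      rw [← e1]
      refine le_trans ?_ hv
      gcongr
    rw [mul_div_assoc', div_le_iff₀ hDpos] at e3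
    have e4 : (Fintype.card G : ℝ) * (bad.card * 4) ≤ Fintype.card G * D.card := by nlinarith
    exact le_of_mul_le_mul_left e4 hGpos
  have hcover : ∀ y ∈ D, y ∈ bad ∨ y + x ∈ bad := by
    intro y hy
    by_contra hno
    push Not at hno
    have h1 : |∑ i, ((v i y).re - g y) / 2| < n / (8 * M) := by
      by_contra hc
      apply hno.1
      rw [hbad, mem_filter]
      exact ⟨mem_univ _, not_lt.1 hc⟩
    have h2 : |∑ i, ((v i (y + x)).re - g (y + x)) / 2| < n / (8 * M) := by
      by_contra hc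
      apply hno.2
      rw [hbad, mem_filter]
      exact ⟨mem_univ _, not_lt.1 hc⟩
    have h3 : g (y + x) = 0 := by
      rw [hg]
      simp only
      have : (A.filter fun a => a + (y + x) ∈ A) = ∅ := by
        rw [filter_eq_empty_iff]
        intro a ha hax
        have h4 := h y hy
        have h5 : (A.filter fun a => a + y ∈ A).Nonempty := by
          rw [nonempty_iff_ne_empty]
          intro h6
          rw [h6, card_empty, Nat.cast_zero, mul_zero] at h4
          linarith
        obtain ⟨b, hb⟩ := h5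
        rw [mem_filter] at hb
        apply hcon
        refine ⟨a + (y + x), hax, b, hb.1, a, ha, b + y, hb.2, ?_⟩
        abel
      rw [this, card_empty, Nat.cast_zero, zero_div]
    have h4 : 1 / M ≤ g y := by
      rw [hg]
      simp only
      rw [div_le_div_iff₀ hM hApos]
      have := h y hy
      linarith
    have h5 : ∀ i, (v i y).re - (v i (y + x)).re ≤ ‖v i x - 1‖ := by
      intro i
      have e1 : (v i y).re - (v i (y + x)).re = (v i y * (1 - v i x)).re := by
        rw [AddChar.map_add_eq_mul, mul_sub, mul_one, Complex.sub_re]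
      rw [e1]
      refine (Complex.re_le_norm _).trans ?_
      rw [norm_mul, AddChar.norm_apply, one_mul, norm_sub_rev]
    have h6 : ∑ i, ((v i y).re - (v i (y + x)).re) ≤ n * (1 / (2 * M)) := by
      calc _ ≤ ∑ i : Fin n, (1 / (2 * M)) := by
            apply sum_le_sum
            intro i _
            exact (h5 i).trans (hx (v i) (mem_image_of_mem v (mem_univ i))).le
        _ = _ := by rw [sum_const, card_univ, Fintype.card_fin, nsmul_eq_mul]
    have h7 : ∑ i, ((v i y).re - g y) / 2 = (∑ i, (v i y).re) / 2 - n * g y / 2 := by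
      rw [← sum_div, sum_sub_distrib, sum_const, card_univ, Fintype.card_fin, nsmul_eq_mul]
      ring
    have h8 : ∑ i, ((v i (y + x)).re - g (y + x)) / 2 = (∑ i, (v i (y + x)).re) / 2 := by
      rw [← sum_div, sum_sub_distrib, h3]
      simp
    rw [h7] at h1
    rw [h8] at h2
    rw [sum_sub_distrib] at h6
    have h9 := (abs_lt.1 h1).1
    have h10 := (abs_lt.1 h2).2
    have h11 : (n : ℝ) * (1 / M) ≤ n * g y := by gcongr
    have h12 : (n : ℝ) * (1 / (2 * M)) = 4 * (n / (8 * M)) := by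
      field_simp
      norm_num
    have h13 : (n : ℝ) * (1 / M) = 8 * (n / (8 * M)) := by
      field_simp
    linarith
  have hDle : D.card ≤ bad.card + bad.card := by
    have h1 : D ⊆ bad ∪ bad.image (fun z => z - x) := by
      intro y hy
      rw [mem_union, mem_image]
      rcases hcover y hy with h | h
      · exact Or.inl h
      · exact Or.inr ⟨y + x, h, by abel⟩
    calc D.card ≤ (bad ∪ bad.image (fun z => z - x)).card := card_le_card h1
      _ ≤ bad.card + (bad.image (fun z => z - x)).card := card_union_le _ _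
      _ ≤ bad.card + bad.card := Nat.add_le_add_left card_image_le _
  have hDle' : (D.card : ℝ) ≤ bad.card + bad.card := by exact_mod_cast hDle
  linarith

end Pool.Agent.H89.BH
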