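import Pool.Agent.H89.BH.Fou
import Pool.Agent.H89.BH.Pop

/-!
# Slow growth under the addition of `m` copies of a set
-/

set_option autoImplicit false
set_option linter.unusedSectionVars false

namespace Pool.Agent.H89.BH

open Finset Pool.Agent.K4H60.BZ
open scoped Pointwise BigOperators ComplexConjugate

variable {G : Type*} [AddCommGroup G] [Fintype G] [DecidableEq G]

/-- The defect of a character on `B`: `∑ |ψ(b - b') - 1|²` over `b, b' ∈ B`. -/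
noncomputable def dfc (B : Finset G) (ψ : AddChar G ℂ) : ℝ := ∑ b ∈ B, ∑ b' ∈ B, ‖ψ (b - b') - 1‖ ^ 2

theorem norm_sub_one_sq (ψ : AddChar G ℂ) (z : G) : ‖ψ z - 1‖ ^ 2 = 2 - 2 * (ψ z).re := by
  have h1 := AddChar.norm_apply ψ z
  have h2 : ‖ψ z‖ ^ 2 = 1 := by rw [h1]; norm_num
  rw [← Complex.normSq_eq_norm_sq] at h2 ⊢
  rw [Complex.normSq_apply] at h2 ⊢
  simp only [Complex.sub_re, Complex.sub_im, Complex.one_re, Complex.one_im]
  nlinarith

theorem dfc_eq (B : Finset G) (ψ : AddChar G ℂ) :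
    dfc B ψ = 2 * (B.card : ℝ) ^ 2 - 2 * ‖∑ b ∈ B, ψ b‖ ^ 2 := by
  unfold dfc
  simp_rw [norm_sub_one_sq]
  have h1 : ∑ b ∈ B, ∑ b' ∈ B, (ψ (b - b')).re = ‖∑ b ∈ B, ψ b‖ ^ 2 := by
    have h2 : ((‖∑ b ∈ B, ψ b‖ ^ 2 : ℝ) : ℂ) = ∑ b ∈ B, ∑ b' ∈ B, ψ (b - b') := by
      have : ((‖∑ b ∈ B, ψ b‖ ^ 2 : ℝ) : ℂ) = (∑ b ∈ B, ψ b) * conj (∑ b ∈ B, ψ b) := by
        rw [Complex.mul_conj, Complex.normSq_eq_norm_sq]
      rw [this, map_sum, sum_mul_sum]
      apply sum_congr rfl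
      intro a _
      apply sum_congr rfl
      intro b _
      rw [sub_eq_add_neg, AddChar.map_add_eq_mul, AddChar.map_neg_eq_conj]
    have h3 := congrArg Complex.re h2
    rw [Complex.ofReal_re, Complex.re_sum] at h3
    rw [h3]
    apply sum_congr rfl
    intro b _
    rw [Complex.re_sum]
  rw [← h1]
  simp only [sum_sub_distrib, sum_const, nsmul_eq_mul, ← mul_sum]
  ring

theorem dfc_add (B : Finset G) (ψ χ : AddChar G ℂ) (s : ℝ) (hs : 0 < s) :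
    dfc B (ψ + χ) ≤ (1 + s) * dfc B ψ + (1 + 1 / s) * dfc B χ := by
  unfold dfc
  rw [mul_sum, mul_sum, ← sum_add_distrib]
  apply sum_le_sum
  intro b _
  rw [mul_sum, mul_sum, ← sum_add_distrib]
  apply sum_le_sum
  intro b' _
  have h1 := norm_add_sub_one ψ χ (b - b')
  have h2 : 0 ≤ ‖(ψ + χ) (b - b') - 1‖ := norm_nonneg _
  obtain ⟨x, hx⟩ : ∃ x, x = ‖ψ (b - b') - 1‖ := ⟨_, rfl⟩
  obtain ⟨y, hy⟩ : ∃ y, y = ‖χ (b - b') - 1‖ := ⟨_, rfl⟩
  rw [← hx, ← hy] at h1 ⊢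
  calc ‖(ψ + χ) (b - b') - 1‖ ^ 2 ≤ (x + y) ^ 2 := by gcongr
    _ ≤ (1 + s) * x ^ 2 + (1 + 1 / s) * y ^ 2 := by
      have h3 : (1 + s) * x ^ 2 + (1 + 1 / s) * y ^ 2 - (x + y) ^ 2 = (s * x - y) ^ 2 / s := by
        field_simp
        ring
      have h4 : 0 ≤ (s * x - y) ^ 2 / s := by positivity
      linarith

theorem dfc_neg (B : Finset G) (ψ : AddChar G ℂ) : dfc B (-ψ) = dfc B ψ := by
  unfold dfc
  simp_rw [norm_neg_sub_one]

theorem dfc_nonneg (B : Finset G) (ψ : AddChar G ℂ) : 0 ≤ dfc B ψ :=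
  sum_nonneg fun _ _ => sum_nonneg fun _ _ => sq_nonneg _

theorem dfc_zero (B : Finset G) : dfc B 0 = 0 := by
  unfold dfc
  simp

/-- a large Fourier coefficient means a small defect -/
theorem dfc_of_large (B : Finset G) (ψ : AddChar G ℂ) (ε : ℝ) (hε : 0 ≤ ε)
    (h : (1 - ε) * (B.card : ℝ) ≤ ‖∑ b ∈ B, ψ b‖) : dfc B ψ ≤ 4 * ε * (B.card : ℝ) ^ 2 := by
  rw [dfc_eq]
  by_cases h1 : ε ≤ 1
  · have h2 : ((1 - ε) * (B.card : ℝ)) ^ 2 ≤ ‖∑ b ∈ B, ψ b‖ ^ 2 := by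
      have : 0 ≤ (1 - ε) * (B.card : ℝ) := mul_nonneg (by linarith) (Nat.cast_nonneg _)
      gcongr
    have h3 : 0 ≤ (B.card : ℝ) ^ 2 := by positivity
    nlinarith [mul_nonneg (sq_nonneg ε) h3]
  · push Not at h1
    have h3 : 0 ≤ (B.card : ℝ) ^ 2 := by positivity
    have h4 : 0 ≤ ‖∑ b ∈ B, ψ b‖ ^ 2 := by positivity
    nlinarith

/-- **Slow growth.** If `|A + m B| ≤ K |A|` then `2A - 2A` contains the Bohr set of the characters which are nearly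
constant on `B`, and of at most `8 K²` further characters. -/
theorem growth_core (A B : Finset G) (hA : A.Nonempty) (hB : B.Nonempty) (m : ℕ) (K : ℝ) (hK : 1 ≤ K)
    (hAB : ((A + m • B).card : ℝ) ≤ K * A.card) (ε : ℝ) (hε : 0 ≤ ε) (hmε : Real.log (8 * K ^ 2) < 2 * m * ε) :
    ∃ Ψ : Finset (AddChar G ℂ), (Ψ.card : ℝ) ≤ 8 * K ^ 2 ∧ ∀ x : G, (∀ ψ ∈ Ψ, ‖ψ x - 1‖ ≤ 1 / 2) →
      (∀ ψ : AddChar G ℂ, dfc B ψ ≤ 16 * ε * (B.card : ℝ) ^ 2 → ‖ψ x - 1‖ ≤ 1 / 2) →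
      ∃ a₁ ∈ A, ∃ a₂ ∈ A, ∃ a₃ ∈ A, ∃ a₄ ∈ A, x = a₁ + a₂ - a₃ - a₄ := by
  classical
  have hApos : (0 : ℝ) < A.card := by exact_mod_cast hA.card_pos
  have hBpos : (0 : ℝ) < B.card := by exact_mod_cast hB.card_pos
  have hGpos : (0 : ℝ) < Fintype.card G := by exact_mod_cast Fintype.card_pos
  have hKpos : 0 < K := by linarith
  obtain ⟨w, hw⟩ : ∃ w : AddChar G ℂ → ℝ, w = fun ψ => ‖∑ a ∈ A, ψ a‖ ^ 2 / (Fintype.card G * A.card) := ⟨_, rfl⟩
  have hw0 : ∀ ψ, 0 ≤ w ψ := by intro ψ; rw [hw]; positivity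
  have hw1 : ∑ ψ, w ψ = 1 := by
    rw [hw, ← sum_div, parseval_set]
    exact div_self (by positivity)
  obtain ⟨u, hu⟩ : ∃ u : AddChar G ℂ → ℝ, u = fun ψ => (‖∑ b ∈ B, ψ b‖ ^ 2 / (B.card : ℝ) ^ 2) ^ m := ⟨_, rfl⟩
  have hu0 : ∀ ψ, 0 ≤ u ψ := by intro ψ; rw [hu]; positivity
  have hle : ∀ ψ : AddChar G ℂ, ‖∑ b ∈ B, ψ b‖ ≤ (B.card : ℝ) := by
    intro ψ
    refine (norm_sum_le _ _).trans (le_of_eq ?_)
    simp [AddChar.norm_apply]
  have hu1 : ∀ ψ, u ψ ≤ 1 := by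
    intro ψ
    rw [hu]
    apply pow_le_one₀ (by positivity)
    apply div_le_one_of_le₀ _ (by positivity)
    have := hle ψ
    gcongr
  have hE : 1 / K ≤ ∑ ψ, w ψ * u ψ := by
    rw [hw, hu]
    exact energy_low A B hA hB m K hKpos hAB
  obtain ⟨g, hg⟩ : ∃ g : G → ℝ, g = fun y => ((A.filter fun a => a + y ∈ A).card : ℝ) / A.card := ⟨_, rfl⟩
  have hg0 : ∀ y, 0 ≤ g y := by intro y; rw [hg]; positivity
  have hgexp : ∀ y, ((g y : ℝ) : ℂ) = ∑ ψ, (w ψ : ℂ) * ψ y := by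
    intro y
    have h1 := rep_expand A y
    rw [hw, hg]
    simp only
    have h3 : ∀ ψ : AddChar G ℂ, ((‖∑ a ∈ A, ψ a‖ ^ 2 / (Fintype.card G * A.card) : ℝ) : ℂ) * ψ y =
        (((‖∑ a ∈ A, ψ a‖ ^ 2 : ℝ) : ℂ) * ψ y) / (Fintype.card G * A.card) := by
      intro ψ; push_cast; ring
    simp_rw [h3]
    rw [← sum_div, h1]
    push_cast
    have hA' : (A.card : ℂ) ≠ 0 := by exact_mod_cast hApos.ne'
    have hG' : (Fintype.card G : ℂ) ≠ 0 := by exact_mod_cast hGpos.ne'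
    field_simp
  -- the average over the differences of sums of `m` elements of `B`
  obtain ⟨P, hP⟩ : ∃ P : Finset (Fin m → G), P = Fintype.piFinset (fun _ : Fin m => B) := ⟨_, rfl⟩
  have hPcard : (P.card : ℝ) = (B.card : ℝ) ^ m := by
    rw [hP, Fintype.card_piFinset, prod_const, card_univ, Fintype.card_fin]
    push_cast
    rfl
  have hPpos : (0 : ℝ) < P.card := by rw [hPcard]; positivity
  obtain ⟨J, hJ⟩ : ∃ J : Finset ((Fin m → G) × (Fin m → G)), J = P ×ˢ P := ⟨_, rfl⟩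
  have hJcard : (J.card : ℝ) = ((B.card : ℝ) ^ m) ^ 2 := by
    rw [hJ, card_product]
    push_cast
    rw [hPcard]
    ring
  have hJpos : (0 : ℝ) < J.card := by rw [hJcard]; positivity
  obtain ⟨pt, hpt⟩ : ∃ pt : ((Fin m → G) × (Fin m → G)) → G, pt = fun j => ∑ i, (j.1 i - j.2 i) := ⟨_, rfl⟩
  have havg : ∀ ψ : AddChar G ℂ, (∑ j ∈ J, ψ (pt j)) / (J.card : ℂ) = (u ψ : ℂ) := by
    intro ψ
    have h1 : ∑ j ∈ J, ψ (pt j) = ((‖∑ t ∈ B, ψ t‖ ^ 2 : ℝ) : ℂ) ^ m := by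
      rw [← sum_tuples, hJ, sum_product, hP, hpt]
    have h2 : (J.card : ℂ) = (((B.card : ℝ) ^ m) ^ 2 : ℝ) := by
      rw [← hJcard]
      simp
    rw [h1, h2, hu]
    push_cast
    rw [div_pow, ← pow_mul, ← pow_mul, ← pow_mul, mul_comm m 2]
  obtain ⟨T, hT⟩ : ∃ T : G → ℝ, T = fun x => (∑ j ∈ J, g (pt j) * g (pt j + x)) / J.card := ⟨_, rfl⟩
  obtain ⟨c, hc⟩ : ∃ c : AddChar G ℂ → ℝ, c = fun ψ => ∑ φ, w φ * u (φ + ψ) := ⟨_, rfl⟩
  have hc0 : ∀ ψ, 0 ≤ c ψ := by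
    intro ψ
    rw [hc]
    exact sum_nonneg fun φ _ => mul_nonneg (hw0 φ) (hu0 _)
  have hTexp : ∀ x, ((T x : ℝ) : ℂ) = ∑ ψ, ((w ψ * c ψ : ℝ) : ℂ) * ψ x := by
    intro x
    rw [hT]
    push_cast
    simp_rw [hgexp]
    have e1 : ∀ j ∈ J, (∑ φ, (w φ : ℂ) * φ (pt j)) * (∑ ψ, (w ψ : ℂ) * ψ (pt j + x)) =
        ∑ ψ, ∑ φ, ((w ψ : ℂ) * ψ x * (w φ : ℂ)) * (φ + ψ) (pt j) := by
      intro j _
      rw [mul_comm, sum_mul_sum]
      apply sum_congr rfl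
      intro ψ _
      apply sum_congr rfl
      intro φ _
      rw [AddChar.add_apply, AddChar.map_add_eq_mul]
      ring
    rw [sum_congr rfl e1, sum_comm, sum_div]
    apply sum_congr rfl
    intro ψ _
    rw [sum_comm, sum_div]
    have e2 : ∀ φ ∈ (univ : Finset (AddChar G ℂ)), (∑ j ∈ J, ((w ψ : ℂ) * ψ x * (w φ : ℂ)) * (φ + ψ) (pt j)) / (J.card : ℂ) =
        ((w ψ : ℂ) * ψ x) * ((w φ : ℂ) * (u (φ + ψ) : ℂ)) := by
      intro φ _
      rw [← mul_sum, mul_div_assoc, havg]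
      ring
    rw [sum_congr rfl e2, ← mul_sum, hc]
    push_cast
    ring
  have hTre : ∀ x, T x = ∑ ψ, (w ψ * c ψ) * (ψ x).re := by
    intro x
    have h1 := congrArg Complex.re (hTexp x)
    rw [Complex.ofReal_re, Complex.re_sum] at h1
    rw [h1]
    apply sum_congr rfl
    intro ψ _
    rw [Complex.re_ofReal_mul]
  -- the value at zero
  have hgavg : (∑ j ∈ J, g (pt j)) / J.card = ∑ ψ, w ψ * u ψ := by
    have h1 : (((∑ j ∈ J, g (pt j)) / J.card : ℝ) : ℂ) = ((∑ ψ, w ψ * u ψ : ℝ) : ℂ) := by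
      push_cast
      simp_rw [hgexp]
      rw [sum_comm, sum_div]
      apply sum_congr rfl
      intro ψ _
      rw [← mul_sum, mul_div_assoc, havg]
    exact_mod_cast h1
  have hTzero : 1 / K ^ 2 ≤ T 0 := by
    have h1 : (∑ j ∈ J, g (pt j)) ^ 2 ≤ J.card * ∑ j ∈ J, g (pt j) ^ 2 := sq_sum_le_card_mul_sum_sq
    have h2 : T 0 = (∑ j ∈ J, g (pt j) ^ 2) / J.card := by
      rw [hT]
      simp only [add_zero]
      congr 1
      apply sum_congr rfl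
      intro j _
      ring
    have h3 : ((∑ j ∈ J, g (pt j)) / J.card) ^ 2 ≤ (∑ j ∈ J, g (pt j) ^ 2) / J.card := by
      rw [div_pow, div_le_div_iff₀ (by positivity) hJpos]
      calc (∑ j ∈ J, g (pt j)) ^ 2 * J.card ≤ (J.card * ∑ j ∈ J, g (pt j) ^ 2) * J.card := by gcongr
        _ = _ := by ring
    rw [h2]
    refine le_trans ?_ h3
    rw [hgavg]
    calc 1 / K ^ 2 = (1 / K) ^ 2 := by rw [div_pow, one_pow]
      _ ≤ _ := by gcongr
  -- the large coefficients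
  obtain ⟨η, hη⟩ : ∃ η : ℝ, η = 1 / (8 * K ^ 2) := ⟨_, rfl⟩
  have hη0 : 0 < η := by rw [hη]; positivity
  obtain ⟨Φ, hΦ⟩ : ∃ Φ : AddChar G ℂ → Finset (AddChar G ℂ), Φ = fun ψ => univ.filter fun φ => η ≤ u (φ + ψ) := ⟨_, rfl⟩
  have hΦw : ∀ ψ, 2 * η ≤ c ψ → η ≤ ∑ φ ∈ Φ ψ, w φ := by
    intro ψ hψ
    have h1 : c ψ ≤ ∑ φ ∈ Φ ψ, w φ + η := by
      rw [hc]
      simp only
      rw [← sum_filter_add_sum_filter_not univ (fun φ => η ≤ u (φ + ψ))]
      apply add_le_add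
      · rw [hΦ]
        apply sum_le_sum
        intro φ _
        exact mul_le_of_le_one_right (hw0 φ) (hu1 _)
      · calc _ ≤ ∑ φ ∈ univ.filter (fun φ => ¬ η ≤ u (φ + ψ)), w φ * η := by
              apply sum_le_sum
              intro φ hφ
              rw [mem_filter, not_le] at hφ
              exact mul_le_mul_of_nonneg_left hφ.2.le (hw0 φ)
          _ ≤ ∑ φ, w φ * η := sum_le_sum_of_subset_of_nonneg (filter_subset _ _)
              fun φ _ _ => mul_nonneg (hw0 φ) hη0.le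
          _ = η := by rw [← sum_mul, hw1, one_mul]
    linarith
  -- a maximal family
  obtain ⟨Γ₁, hΓ₁⟩ : ∃ Γ₁ : Finset (AddChar G ℂ), Γ₁ = univ.filter fun ψ => 2 * η ≤ c ψ := ⟨_, rfl⟩
  obtain ⟨Ψ, hΨmem, hΨmax⟩ := exists_max_image (Γ₁.powerset.filter fun Ψ => ∀ ψ ∈ Ψ, ∀ ψ' ∈ Ψ, ψ ≠ ψ' →
    Disjoint (Φ ψ) (Φ ψ')) card ⟨∅, by simp⟩
  rw [mem_filter, mem_powerset] at hΨmem
  obtain ⟨hΨsub, hΨdis⟩ := hΨmem
  refine ⟨Ψ, ?_, ?_⟩
  · have h1 : ∑ ψ ∈ Ψ, ∑ φ ∈ Φ ψ, w φ ≤ 1 := by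
      rw [← sum_biUnion (fun ψ hψ ψ' hψ' h => hΨdis ψ hψ ψ' hψ' h), ← hw1]
      exact sum_le_sum_of_subset_of_nonneg (subset_univ _) fun φ _ _ => hw0 φ
    have h2 : (Ψ.card : ℝ) * η ≤ ∑ ψ ∈ Ψ, ∑ φ ∈ Φ ψ, w φ := by
      rw [← nsmul_eq_mul, ← sum_const]
      apply sum_le_sum
      intro ψ hψ
      apply hΦw
      have := hΨsub hψ
      rw [hΓ₁, mem_filter] at this
      exact this.2
    have h3 := h2.trans h1
    rw [hη, mul_one_div, div_le_one (by positivity)] at h3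
    exact h3
  intro x hx1 hx2
  by_contra hcon
  -- `T x = 0`
  have hTx : T x = 0 := by
    rw [hT]
    simp only
    rw [sum_eq_zero, zero_div]
    intro j _
    by_contra hne
    have h1 : 0 < g (pt j) := lt_of_le_of_ne (hg0 _) (fun h => hne (by rw [← h, zero_mul]))
    have h2 : 0 < g (pt j + x) := lt_of_le_of_ne (hg0 _) (fun h => hne (by rw [← h, mul_zero]))
    rw [hg] at h1 h2
    simp only at h1 h2
    have h3 : (A.filter fun a => a + pt j ∈ A).Nonempty := by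
      rw [nonempty_iff_ne_empty]
      intro h
      rw [h] at h1
      simp at h1
    have h4 : (A.filter fun a => a + (pt j + x) ∈ A).Nonempty := by
      rw [nonempty_iff_ne_empty]
      intro h
      rw [h] at h2
      simp at h2
    obtain ⟨b, hb⟩ := h3
    obtain ⟨a, ha⟩ := h4
    rw [mem_filter] at ha hb
    apply hcon
    refine ⟨a + (pt j + x), ha.2, b, hb.1, a, ha.1, b + pt j, hb.2, ?_⟩
    abel
  -- the characters in `Γ₁`
  have hre : ∀ ψ ∈ Γ₁, 1 / 2 ≤ (ψ x).re := by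
    intro ψ hψ
    have hψ1 : 2 * η ≤ c ψ := by
      rw [hΓ₁, mem_filter] at hψ
      exact hψ.2
    have hex : ∃ ψ' ∈ Ψ, ¬ Disjoint (Φ ψ) (Φ ψ') := by
      by_cases hin : ψ ∈ Ψ
      · refine ⟨ψ, hin, ?_⟩
        intro hd
        rw [disjoint_self_iff_empty] at hd
        have h1 := hΦw ψ hψ1
        rw [hd, sum_empty] at h1
        linarith
      · by_contra hno
        push Not at hno
        have h1 : insert ψ Ψ ∈ Γ₁.powerset.filter fun Ψ => ∀ ψ ∈ Ψ, ∀ ψ' ∈ Ψ, ψ ≠ ψ' →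
            Disjoint (Φ ψ) (Φ ψ') := by
          rw [mem_filter, mem_powerset]
          refine ⟨insert_subset hψ hΨsub, ?_⟩
          intro a ha b hb hab
          rw [mem_insert] at ha hb
          rcases ha with rfl | ha <;> rcases hb with rfl | hb
          · exact absurd rfl hab
          · exact hno b hb
          · exact (hno a ha).symm
          · exact hΨdis a ha b hb hab
        have h2 := hΨmax _ h1
        rw [card_insert_of_notMem hin] at h2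
        omega
    obtain ⟨ψ', hψ', hnd⟩ := hex
    rw [not_disjoint_iff] at hnd
    obtain ⟨φ, hφ1, hφ2⟩ := hnd
    rw [hΦ, mem_filter] at hφ1 hφ2
    have hlarge : ∀ χ : AddChar G ℂ, η ≤ u χ → dfc B χ ≤ 4 * ε * (B.card : ℝ) ^ 2 := by
      intro χ hχ
      apply dfc_of_large B χ ε hε
      by_contra hlt
      push Not at hlt
      have h1 : 0 < 1 - ε := by
        by_contra h
        push Not at h
        have h2 : (1 - ε) * (B.card : ℝ) ≤ 0 := mul_nonpos_of_nonpos_of_nonneg h hBpos.le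
        have h3 := norm_nonneg (∑ b ∈ B, χ b)
        linarith
      have h2 : u χ ≤ ((1 - ε) ^ 2) ^ m := by
        rw [hu]
        simp only
        apply pow_le_pow_left₀ (by positivity)
        rw [div_le_iff₀ (by positivity), ← mul_pow]
        gcongr
      have h3 : 1 - ε ≤ Real.exp (-ε) := by
        have := Real.add_one_le_exp (-ε)
        linarith
      have h4 : ((1 - ε) ^ 2) ^ m ≤ Real.exp (-(2 * m * ε)) := by
        calc ((1 - ε) ^ 2) ^ m ≤ ((Real.exp (-ε)) ^ 2) ^ m := by gcongr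
          _ = _ := by
            rw [← pow_mul, ← Real.exp_nat_mul]
            congr 1
            push_cast
            ring
      have h5 : Real.exp (-(2 * m * ε)) < η := by
        rw [hη, Real.exp_neg, one_div]
        apply inv_strictAnti₀ (by positivity)
        rw [← Real.log_lt_iff_lt_exp (by positivity)]
        exact hmε
      linarith
    have hd1 := hlarge _ hφ1.2
    have hd2 := hlarge _ hφ2.2
    have hdd : dfc B (ψ - ψ') ≤ 16 * ε * (B.card : ℝ) ^ 2 := by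
      have e1 : ψ - ψ' = (φ + ψ) + (-(φ + ψ')) := by abel
      rw [e1]
      have h1 := dfc_add B (φ + ψ) (-(φ + ψ')) 1 one_pos
      rw [dfc_neg] at h1
      linarith
    have h1 := hx2 _ hdd
    have h2 := hx1 _ hψ'
    have h3 : ‖ψ x - 1‖ ≤ 1 := by
      have e1 : ψ = (ψ - ψ') + ψ' := by abel
      rw [e1]
      refine (norm_add_sub_one _ _ _).trans ?_
      linarith
    have h4 := norm_sub_one_sq ψ x
    have h5 : ‖ψ x - 1‖ ^ 2 ≤ 1 := by
      have := norm_nonneg (ψ x - 1)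
      nlinarith
    linarith
  -- the contradiction
  have hsum0 : T 0 = ∑ ψ, w ψ * c ψ := by
    rw [hTre]
    apply sum_congr rfl
    intro ψ _
    rw [AddChar.map_zero_eq_one, Complex.one_re, mul_one]
  have hsplit0 : ∑ ψ ∈ Γ₁, w ψ * c ψ + ∑ ψ ∈ univ.filter (fun ψ => ¬ 2 * η ≤ c ψ), w ψ * c ψ = T 0 := by
    rw [hsum0, hΓ₁]
    exact sum_filter_add_sum_filter_not univ (fun ψ => 2 * η ≤ c ψ) _
  have hsmall : ∑ ψ ∈ univ.filter (fun ψ => ¬ 2 * η ≤ c ψ), w ψ * c ψ ≤ 2 * η := by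
    calc _ ≤ ∑ ψ ∈ univ.filter (fun ψ => ¬ 2 * η ≤ c ψ), w ψ * (2 * η) := by
          apply sum_le_sum
          intro ψ hψ
          rw [mem_filter, not_le] at hψ
          exact mul_le_mul_of_nonneg_left hψ.2.le (hw0 ψ)
      _ ≤ ∑ ψ, w ψ * (2 * η) := sum_le_sum_of_subset_of_nonneg (filter_subset _ _)
          fun ψ _ _ => mul_nonneg (hw0 ψ) (by linarith)
      _ = 2 * η := by rw [← sum_mul, hw1, one_mul]
  have hlow : (1 / 2) * ∑ ψ ∈ Γ₁, w ψ * c ψ - ∑ ψ ∈ univ.filter (fun ψ => ¬ 2 * η ≤ c ψ), w ψ * c ψ ≤ T x := by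
    rw [hTre, ← sum_filter_add_sum_filter_not univ (fun ψ => 2 * η ≤ c ψ) (fun ψ => w ψ * c ψ * (ψ x).re), ← hΓ₁,
      mul_sum, sub_eq_add_neg, ← sum_neg_distrib]
    apply add_le_add
    · apply sum_le_sum
      intro ψ hψ
      have h1 := hre ψ hψ
      have h2 := mul_nonneg (hw0 ψ) (hc0 ψ)
      nlinarith
    · apply sum_le_sum
      intro ψ _
      have h1 : |(ψ x).re| ≤ 1 := by
        refine (Complex.abs_re_le_norm _).trans ?_
        rw [AddChar.norm_apply]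
      have h2 := (abs_le.1 h1).1
      have h3 := mul_nonneg (hw0 ψ) (hc0 ψ)
      nlinarith
  have hηK : 1 / K ^ 2 = 8 * η := by
    rw [hη]
    field_simp
  linarith

end Pool.Agent.H89.BH
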