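import Pool.Agent.H89.BH.Many
import Pool.Graph.R_pool_sql_team_seeded_c8625f6e.K4H60.BZ.ZN
import Pool.Graph.R_pool_sql_team_seeded_2aa45f1a.Q166.RF.Free

/-!
# The bounds in `ℤ/N`
-/

set_option autoImplicit false
set_option linter.unusedSectionVars false

namespace Pool.Agent.H89.BH

open Finset Pool.Agent.K4H60.BZ
open scoped Pointwise BigOperators ComplexConjugate

theorem four_nint_le (t : ℝ) : 4 * nint t ≤ ‖Complex.exp (2 * Real.pi * Complex.I * t) - 1‖ := by
  have e1 : Complex.exp (2 * Real.pi * Complex.I * t) = Complex.exp (Complex.I * ((2 * Real.pi * (t - round t) : ℝ) : ℂ)) := by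
    rw [Complex.exp_eq_exp_iff_exists_int]
    refine ⟨round t, ?_⟩
    push_cast
    ring
  have hτ : |t - round t| ≤ 1 / 2 := abs_sub_round t
  rw [e1, Complex.norm_exp_I_mul_ofReal_sub_one]
  have e2 : 2 * Real.pi * (t - round t) / 2 = Real.pi * (t - round t) := by ring
  rw [e2, norm_mul, Real.norm_eq_abs, Real.norm_eq_abs, abs_two]
  have hpi := Real.pi_pos
  have h1 : |Real.pi * (t - round t)| ≤ Real.pi / 2 := by
    rw [abs_mul, abs_of_pos hpi]
    calc Real.pi * |t - round t| ≤ Real.pi * (1 / 2) := by gcongr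
      _ = _ := by ring
  have h2 := Real.mul_abs_le_abs_sin h1
  rw [abs_mul, abs_of_pos hpi] at h2
  have h3 : 2 / Real.pi * (Real.pi * |t - round t|) = 2 * |t - round t| := by
    field_simp
  rw [h3] at h2
  unfold nint
  linarith

/-- The frequencies of a finite set of characters. -/
theorem freq_fin {N : ℕ} [NeZero N] (Λ : Finset (AddChar (ZMod N) ℂ)) :
    ∃ Γ : Finset (ZMod N), Γ.card ≤ Λ.card ∧
      (∀ (x : ZMod N) (r : ℝ), (∀ γ ∈ Γ, nint (((γ * x).val : ℝ) / N) ≤ r) → ∀ ψ ∈ Λ, ‖ψ x - 1‖ ≤ 2 * Real.pi * r) ∧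
      (∀ (x : ZMod N) (η : ℝ), (∀ ψ ∈ Λ, ‖ψ x - 1‖ ≤ 4 * η) → ∀ γ ∈ Γ, nint (((γ * x).val : ℝ) / N) ≤ η) := by
  classical
  choose fr hfr using exists_freq (N := N)
  refine ⟨Λ.image fr, card_image_le, ?_, ?_⟩
  · intro x r hx ψ hψ
    have h1 := hx _ (mem_image_of_mem fr hψ)
    have h4 : ψ x = Complex.exp (2 * Real.pi * Complex.I * ((((fr ψ * x).val : ℝ) / N : ℝ) : ℂ)) := by
      rw [hfr ψ x]
      push_cast
      rfl
    rw [h4]
    refine (norm_exp_sub_one_le _).trans ?_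
    gcongr
  · intro x η hx γ hγ
    rw [mem_image] at hγ
    obtain ⟨ψ, hψ, rfl⟩ := hγ
    have h1 := hx ψ hψ
    have h4 : ψ x = Complex.exp (2 * Real.pi * Complex.I * ((((fr ψ * x).val : ℝ) / N : ℝ) : ℂ)) := by
      rw [hfr ψ x]
      push_cast
      rfl
    rw [h4] at h1
    have h5 := four_nint_le (((fr ψ * x).val : ℝ) / N)
    linarith

section general

variable {G : Type*} [AddCommGroup G] [Fintype G] [DecidableEq G]

/-- a small sumset gives many popular differences -/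
theorem popular_of_sumset (A B : Finset G) (hA : A.Nonempty) (hB : B.Nonempty) (K : ℝ) (hK : 0 < K)
    (hAB : ((A + B).card : ℝ) ≤ K * A.card) :
    ∃ D : Finset G, D.Nonempty ∧ (B.card : ℝ) ≤ 2 * K * D.card ∧
      ∀ x ∈ D, (A.card : ℝ) ≤ (2 * K) * ((A.filter fun a => a + x ∈ A).card : ℝ) := by
  classical
  have hApos : (0 : ℝ) < A.card := by exact_mod_cast hA.card_pos
  have hBpos : (0 : ℝ) < B.card := by exact_mod_cast hB.card_pos
  obtain ⟨r, hr⟩ : ∃ r : G → ℝ, r = fun x => ((A.filter fun a => a + x ∈ A).card : ℝ) := ⟨_, rfl⟩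
  have hr0 : ∀ x, 0 ≤ r x := by intro x; rw [hr]; positivity
  have hrA : ∀ x, r x ≤ A.card := by
    intro x
    rw [hr]
    simp only
    exact_mod_cast card_le_card (filter_subset _ _)
  have h1 := coin_ge (A ×ˢ B) (fun p => p.1 + p.2) (A + B) (by
    intro p hp
    rw [mem_product] at hp
    exact add_mem_add hp.1 hp.2)
  have h2 : ∑ p ∈ A ×ˢ B, ∑ p' ∈ A ×ˢ B, (if p.1 + p.2 = p'.1 + p'.2 then (1 : ℝ) else 0) =
      ∑ b ∈ B, ∑ b' ∈ B, r (b - b') := by
    rw [sum_product_right]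
    apply sum_congr rfl
    intro b _
    have e1 : ∀ a ∈ A, ∑ p' ∈ A ×ˢ B, (if a + b = p'.1 + p'.2 then (1 : ℝ) else 0) =
        ∑ b' ∈ B, (if a + (b - b') ∈ A then (1 : ℝ) else 0) := by
      intro a _
      rw [sum_product_right]
      apply sum_congr rfl
      intro b' _
      have e2 : ∀ a' ∈ A, (if a + b = a' + b' then (1 : ℝ) else 0) = if a' = a + (b - b') then (1 : ℝ) else 0 := by
        intro a' _
        have : a + b = a' + b' ↔ a' = a + (b - b') := by
          constructor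
          · intro h
            have : a' = (a' + b') - b' := by abel
            rw [this, ← h]
            abel
          · intro h
            rw [h]
            abel
        simp only [this]
      rw [sum_congr rfl e2, sum_ite_eq']
    rw [sum_congr rfl e1, sum_comm]
    apply sum_congr rfl
    intro b' _
    rw [hr]
    simp only
    rw [← sum_filter, sum_const, nsmul_eq_mul, mul_one]
  rw [h2, card_product] at h1
  push_cast at h1
  obtain ⟨D, hD⟩ : ∃ D : Finset G, D = univ.filter fun x => (A.card : ℝ) ≤ (2 * K) * r x := ⟨_, rfl⟩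
  have h3 : (A.card : ℝ) * (B.card : ℝ) ^ 2 ≤ K * ∑ b ∈ B, ∑ b' ∈ B, r (b - b') := by
    have h4 : (A.card : ℝ) * (A.card * (B.card : ℝ) ^ 2) ≤ A.card * (K * ∑ b ∈ B, ∑ b' ∈ B, r (b - b')) := by
      calc (A.card : ℝ) * (A.card * (B.card : ℝ) ^ 2) = (A.card * B.card : ℝ) ^ 2 := by ring
        _ ≤ (A + B).card * ∑ b ∈ B, ∑ b' ∈ B, r (b - b') := h1
        _ ≤ (K * A.card) * ∑ b ∈ B, ∑ b' ∈ B, r (b - b') := by
            have : 0 ≤ ∑ b ∈ B, ∑ b' ∈ B, r (b - b') := sum_nonneg fun _ _ => sum_nonneg fun _ _ => hr0 _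
            gcongr
        _ = _ := by ring
    exact le_of_mul_le_mul_left h4 hApos
  -- the pairs with a popular difference
  obtain ⟨Q, hQ⟩ : ∃ Q : Finset (G × G), Q = (B ×ˢ B).filter fun p => p.1 - p.2 ∈ D := ⟨_, rfl⟩
  have h4 : ∑ b ∈ B, ∑ b' ∈ B, r (b - b') ≤ A.card * Q.card + (B.card : ℝ) ^ 2 * (A.card / (2 * K)) := by
    rw [← sum_product (s := B) (t := B) (f := fun p : G × G => r (p.1 - p.2)),
      ← sum_filter_add_sum_filter_not (B ×ˢ B) (fun p : G × G => p.1 - p.2 ∈ D), ← hQ]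
    apply add_le_add
    · calc ∑ p ∈ Q, r (p.1 - p.2) ≤ ∑ p ∈ Q, (A.card : ℝ) := sum_le_sum fun p _ => hrA _
        _ = _ := by rw [sum_const, nsmul_eq_mul]; ring
    · calc _ ≤ ∑ p ∈ (B ×ˢ B).filter (fun p : G × G => ¬ p.1 - p.2 ∈ D), (A.card : ℝ) / (2 * K) := by
            apply sum_le_sum
            intro p hp
            rw [mem_filter, hD, mem_filter] at hp
            have h5 : ¬ (A.card : ℝ) ≤ (2 * K) * r (p.1 - p.2) := fun h => hp.2 ⟨mem_univ _, h⟩
            rw [le_div_iff₀ (by positivity)]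
            push Not at h5
            linarith
        _ ≤ ∑ p ∈ B ×ˢ B, (A.card : ℝ) / (2 * K) := sum_le_sum_of_subset_of_nonneg (filter_subset _ _)
            fun _ _ _ => by positivity
        _ = _ := by
            rw [sum_const, nsmul_eq_mul, card_product]
            push_cast
            ring
  have h5 : (B.card : ℝ) ^ 2 ≤ 2 * K * Q.card := by
    have h6 : (A.card : ℝ) * (B.card : ℝ) ^ 2 ≤ K * (A.card * Q.card + (B.card : ℝ) ^ 2 * (A.card / (2 * K))) :=
      h3.trans (by gcongr)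
    have h7 : K * (A.card * Q.card + (B.card : ℝ) ^ 2 * (A.card / (2 * K))) =
        A.card * (K * Q.card + (B.card : ℝ) ^ 2 / 2) := by
      field_simp
    rw [h7] at h6
    have h8 := le_of_mul_le_mul_left h6 hApos
    linarith
  have h6 : Q.card ≤ D.card * B.card := by
    have : Q.card ≤ (D ×ˢ B).card := by
      apply card_le_card_of_injOn (fun p => (p.1 - p.2, p.2))
      · intro p hp
        rw [hQ] at hp
        simp only [coe_filter, mem_product, Set.mem_ofPred_eq] at hp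
        simp only [coe_product, Set.mem_prod, mem_coe]
        exact ⟨hp.2, hp.1.2⟩
      · intro p _ p' _ hpp
        simp only [Prod.mk.injEq] at hpp
        apply Prod.ext _ hpp.2
        have : p.1 = (p.1 - p.2) + p.2 := by abel
        rw [this, hpp.1, hpp.2]
        abel
    rwa [card_product] at this
  have h7 : (Q.card : ℝ) ≤ D.card * B.card := by exact_mod_cast h6
  have h8 : (B.card : ℝ) ≤ 2 * K * D.card := by
    have : (B.card : ℝ) * B.card ≤ B.card * (2 * K * D.card) := by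
      calc (B.card : ℝ) * B.card = (B.card : ℝ) ^ 2 := by ring
        _ ≤ 2 * K * Q.card := h5
        _ ≤ 2 * K * (D.card * B.card) := by gcongr
        _ = _ := by ring
    exact le_of_mul_le_mul_left this hBpos
  refine ⟨D, ?_, h8, ?_⟩
  · rw [nonempty_iff_ne_empty]
    intro h
    rw [h, card_empty, Nat.cast_zero, mul_zero] at h8
    linarith
  · intro x hx
    rw [hD, mem_filter, hr] at hx
    exact hx.2

end general

variable {N : ℕ} [NeZero N]

/-- one copy of `B` -/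
theorem one_copy (A B : Finset (ZMod N)) (hA : A.Nonempty) (hB : B.Nonempty) (K : ℝ) (hK : 1 ≤ K)
    (hAB : ((A + B).card : ℝ) ≤ K * A.card) :
    ∃ Γ : Finset (ZMod N), (Γ.card : ℝ) ≤ 512 * K ^ 2 * (Real.log ((N : ℝ) / B.card) + Real.log (16 * K)) + 1 ∧
      ∀ x : ZMod N, (∀ γ ∈ Γ, nint (((γ * x).val : ℝ) / N) ≤ 1 / (26 * K)) →
        ∃ a₁ ∈ A, ∃ a₂ ∈ A, ∃ a₃ ∈ A, ∃ a₄ ∈ A, x = a₁ + a₂ - a₃ - a₄ := by
  have hKpos : 0 < K := by linarith
  have hBpos : (0 : ℝ) < B.card := by exact_mod_cast hB.card_pos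
  have hNpos : (0 : ℝ) < N := by exact_mod_cast Nat.pos_of_ne_zero (NeZero.ne N)
  obtain ⟨D, hD, hDB, hDA⟩ := popular_of_sumset A B hA hB K hKpos hAB
  have hDpos : (0 : ℝ) < D.card := by exact_mod_cast hD.card_pos
  obtain ⟨Λ, hΛ, hmain⟩ := pop A D hA hD (2 * K) (by positivity) hDA
  obtain ⟨Γ, hΓ, hfr, _⟩ := freq_fin Λ
  refine ⟨Γ, ?_, ?_⟩
  · have h1 : (Γ.card : ℝ) ≤ Λ.card := by exact_mod_cast hΓ
    refine h1.trans (hΛ.trans ?_)
    rw [ZMod.card]
    have h2 : Real.log (8 * N / D.card) ≤ Real.log ((N : ℝ) / B.card) + Real.log (16 * K) := by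
      rw [← Real.log_mul (by positivity) (by positivity)]
      apply Real.log_le_log (by positivity)
      rw [div_mul_eq_mul_div, div_le_div_iff₀ hDpos hBpos]
      calc 8 * (N : ℝ) * B.card ≤ 8 * N * (2 * K * D.card) := by gcongr
        _ = _ := by ring
    have h3 : 0 ≤ 128 * (2 * K) ^ 2 := by positivity
    calc 128 * (2 * K) ^ 2 * Real.log (8 * N / D.card) + 1
        ≤ 128 * (2 * K) ^ 2 * (Real.log ((N : ℝ) / B.card) + Real.log (16 * K)) + 1 := by gcongr
      _ = _ := by ring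
  · intro x hx
    apply hmain x
    intro ψ hψ
    refine lt_of_le_of_lt (hfr x _ hx ψ hψ) ?_
    have hpi := Real.pi_lt_d2
    rw [mul_one_div, div_lt_div_iff₀ (by positivity) (by positivity)]
    nlinarith

/-- `m ≥ 8 log (8 K²)` copies of `B` -/
theorem log_copies (A B : Finset (ZMod N)) (hA : A.Nonempty) (hB : B.Nonempty) (m : ℕ) (K : ℝ) (hK : 1 ≤ K)
    (hAB : ((A + m • B).card : ℝ) ≤ K * A.card) (hm : 8 * Real.log (8 * K ^ 2) < m) :
    ∃ Γ : Finset (ZMod N), (Γ.card : ℝ) ≤ 8 * K ^ 2 + 8 * Real.log ((N : ℝ) / B.card) ∧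
      ∀ x : ZMod N, (∀ γ ∈ Γ, nint (((γ * x).val : ℝ) / N) ≤ 1 / (13 * (8 * Real.log ((N : ℝ) / B.card) + 1))) →
        ∃ a₁ ∈ A, ∃ a₂ ∈ A, ∃ a₃ ∈ A, ∃ a₄ ∈ A, x = a₁ + a₂ - a₃ - a₄ := by
  classical
  have hKpos : 0 < K := by linarith
  have hBpos : (0 : ℝ) < B.card := by exact_mod_cast hB.card_pos
  have hNpos : (0 : ℝ) < N := by exact_mod_cast Nat.pos_of_ne_zero (NeZero.ne N)
  obtain ⟨Ψ, hΨ, hmain⟩ := growth_core A B hA hB m K hK hAB (1 / 16) (by norm_num) (by linarith)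
  obtain ⟨Λ, hΛ, hspan⟩ := spec_span B hB
  rw [ZMod.card] at hΛ
  obtain ⟨Q, hQ⟩ : ∃ Q : ℝ, Q = 8 * Real.log ((N : ℝ) / B.card) := ⟨_, rfl⟩
  rw [← hQ] at hΛ ⊢
  have hQ0 : 0 ≤ Q := (Nat.cast_nonneg _).trans hΛ
  obtain ⟨Γ, hΓ, hfr, _⟩ := freq_fin (Ψ ∪ Λ)
  refine ⟨Γ, ?_, ?_⟩
  · have h1 : Γ.card ≤ Ψ.card + Λ.card := hΓ.trans (card_union_le _ _)
    have h2 : (Γ.card : ℝ) ≤ Ψ.card + Λ.card := by exact_mod_cast h1
    linarith
  · intro x hx
    have h1 := hfr x _ hx
    have hpi := Real.pi_lt_d2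
    have hr : 2 * Real.pi * (1 / (13 * (Q + 1))) ≤ 1 / 2 / (Q + 1) := by
      rw [mul_one_div, div_div, div_le_div_iff₀ (by positivity) (by positivity)]
      nlinarith
    apply hmain x
    · intro ψ hψ
      refine (h1 ψ (mem_union_left _ hψ)).trans (hr.trans ?_)
      apply div_le_self (by norm_num)
      linarith
    · intro ψ hψ
      have h2 : (B.card : ℝ) / 2 ≤ ‖∑ b ∈ B, ψ b‖ := by
        rw [dfc_eq] at hψ
        have h3 : ((B.card : ℝ) / 2) ^ 2 ≤ ‖∑ b ∈ B, ψ b‖ ^ 2 := by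
          have : 0 ≤ (B.card : ℝ) ^ 2 := by positivity
          nlinarith
        exact le_of_sq_le_sq h3 (norm_nonneg _)
      obtain ⟨e, he, hψe⟩ := hspan ψ h2
      rw [hψe]
      refine (norm_sum_sub_one _ _ _).trans ?_
      calc ∑ a ∈ Λ, ‖(e a • a) x - 1‖ ≤ ∑ a ∈ Λ, 1 / 2 / (Q + 1) := by
            apply sum_le_sum
            intro a ha
            refine (norm_zsmul_sub_one _ _ _).trans ?_
            have h3 : |((e a : ℤ) : ℝ)| ≤ 1 := by exact_mod_cast he a
            have h4 := (h1 a (mem_union_right _ ha)).trans hr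
            calc |((e a : ℤ) : ℝ)| * ‖a x - 1‖ ≤ 1 * ‖a x - 1‖ := by gcongr
              _ ≤ _ := by rw [one_mul]; exact h4
        _ = Λ.card * (1 / 2 / (Q + 1)) := by rw [sum_const, nsmul_eq_mul]
        _ ≤ (Q + 1) * (1 / 2 / (Q + 1)) := by
            gcongr
            linarith
        _ = 1 / 2 := by field_simp

end Pool.Agent.H89.BH
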